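import Pool.Agent.T2H11.SM.Tuples

set_option autoImplicit false

/-!
# A concentration inequality for functions of independent uniform variables
-/

open Finset

namespace Pool.Agent.T2H11.HN

open Pool.Agent.T2H11.SM

variable {V : Type} [DecidableEq V]

/-- splitting off the `i`-th entry -/
lemma sum_insert (X : Finset V) {m : ℕ} (i : Fin (m + 1)) (F : (Fin (m + 1) → V) → ℝ) :
    ∑ f ∈ Tup X (m + 1), F f = ∑ x ∈ X, ∑ g ∈ Tup X m, F (i.insertNth x g) := by
  rw [← sum_product']
  refine sum_bij' (fun f _ => (f i, i.removeNth f)) (fun q _ => i.insertNth q.1 q.2) ?_ ?_ ?_ ?_ ?_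
  · intro f hf
    rw [mem_product]
    exact ⟨mem_tup.1 hf i, mem_tup.2 fun j => mem_tup.1 hf _⟩
  · intro q hq
    rw [mem_product] at hq
    rw [mem_tup]
    intro j
    refine Fin.succAboveCases i ?_ (fun j => ?_) j
    · rw [Fin.insertNth_apply_same]; exact hq.1
    · rw [Fin.insertNth_apply_succAbove]; exact mem_tup.1 hq.2 j
  · intro f _
    exact Fin.insertNth_self_removeNth i f
  · intro q _
    simp
  · intro f _
    show F f = F (i.insertNth (f i) (i.removeNth f))
    rw [Fin.insertNth_self_removeNth]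

lemma exp_quad {x : ℝ} (hx : |x| ≤ 1) : Real.exp x ≤ 1 + x + x ^ 2 := by
  have h := Real.abs_exp_sub_one_sub_id_le hx
  have := (abs_le.1 h).2
  linarith

omit [DecidableEq V] in
/-- one step: values within `b` of one another -/
lemma one_step (X : Finset V) (hX : X.Nonempty) {b l : ℝ} (hl : 0 ≤ l) (hlb : l * b ≤ 1)
    (g : V → ℝ) (hg : ∀ x ∈ X, ∀ y ∈ X, |g x - g y| ≤ b) :
    ∑ x ∈ X, Real.exp (l * (g x - (∑ y ∈ X, g y) / X.card)) ≤ X.card * Real.exp ((l * b) ^ 2) := by
  set s : ℝ := (X.card : ℝ) with hs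
  have hs0 : 0 < s := by rw [hs]; exact_mod_cast hX.card_pos
  set μ := (∑ y ∈ X, g y) / s with hμ
  have hb : 0 ≤ b := by
    obtain ⟨x, hx⟩ := hX
    have := hg x hx x hx
    rw [sub_self, abs_zero] at this
    exact this
  have h1 : ∀ x ∈ X, |g x - μ| ≤ b := by
    intro x hx
    have e : g x - μ = (∑ y ∈ X, (g x - g y)) / s := by
      rw [sum_sub_distrib, sum_const, nsmul_eq_mul, ← hs, hμ]
      field_simp
    rw [e, abs_div, abs_of_pos hs0, div_le_iff₀ hs0]
    refine (abs_sum_le_sum_abs _ _).trans ?_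
    refine (sum_le_sum fun y hy => hg x hx y hy).trans ?_
    rw [sum_const, nsmul_eq_mul, ← hs, mul_comm]
  have h2 : ∀ x ∈ X, Real.exp (l * (g x - μ)) ≤ 1 + l * (g x - μ) + (l * b) ^ 2 := by
    intro x hx
    have h3 : |l * (g x - μ)| ≤ l * b := by
      rw [abs_mul, abs_of_nonneg hl]
      exact mul_le_mul_of_nonneg_left (h1 x hx) hl
    have h4 := exp_quad (h3.trans hlb)
    have h5 : (l * (g x - μ)) ^ 2 ≤ (l * b) ^ 2 := by
      rw [← sq_abs]
      exact pow_le_pow_left₀ (abs_nonneg _) h3 2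
    linarith
  refine (sum_le_sum h2).trans ?_
  rw [sum_add_distrib, sum_add_distrib, ← mul_sum, sum_sub_distrib, sum_const, sum_const, sum_const,
    nsmul_eq_mul, nsmul_eq_mul, nsmul_eq_mul, ← hs]
  have e : s * μ = ∑ y ∈ X, g y := by rw [hμ]; field_simp
  rw [e, sub_self, mul_zero, mul_one, add_zero]
  have h3 := Real.add_one_le_exp ((l * b) ^ 2)
  nlinarith

/-- exponential moments -/
theorem mgf (X : Finset V) (hX : X.Nonempty) {b l : ℝ} (hl : 0 ≤ l) (hlb : l * b ≤ 1) :
    ∀ (m : ℕ) (F : (Fin m → V) → ℝ),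
      (∀ f ∈ Tup X m, ∀ i, ∀ x ∈ X, |F (Function.update f i x) - F f| ≤ b) →
      ∑ f ∈ Tup X m, Real.exp (l * (F f - (∑ g ∈ Tup X m, F g) / (X.card : ℝ) ^ m)) ≤
        (X.card : ℝ) ^ m * Real.exp (m * (l * b) ^ 2) := by
  set s : ℝ := (X.card : ℝ) with hs
  have hs0 : 0 < s := by rw [hs]; exact_mod_cast hX.card_pos
  intro m
  induction m with
  | zero =>
    intro F _
    have h1 : Tup X 0 = {fun i => i.elim0} := by
      ext f
      rw [mem_tup, mem_singleton]
      exact ⟨fun _ => Subsingleton.elim _ _, fun _ i => i.elim0⟩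
    rw [h1, sum_singleton, sum_singleton]
    simp
  | succ m ih =>
    intro F hF
    have hcons : ∀ (x : V) (g : Fin m → V), (0 : Fin (m + 1)).insertNth x g =
        (Fin.cons x g : Fin (m + 1) → V) := fun x g => Fin.insertNth_zero' x g
    have hmem : ∀ x ∈ X, ∀ g ∈ Tup X m, (Fin.cons x g : Fin (m + 1) → V) ∈ Tup X (m + 1) := by
      intro x hx g hg
      rw [mem_tup]
      intro j
      refine Fin.cases ?_ (fun j => ?_) j
      · simpa using hx
      · simpa using mem_tup.1 hg j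
    let μ : V → ℝ := fun x => (∑ g ∈ Tup X m, F (Fin.cons x g)) / s ^ m
    have hsum : (∑ g ∈ Tup X (m + 1), F g) / s ^ (m + 1) = (∑ y ∈ X, μ y) / s := by
      rw [sum_insert X 0, ← sum_div, div_div, ← pow_succ]
      simp_rw [hcons]
    have hμ : ∀ x ∈ X, ∀ y ∈ X, |μ x - μ y| ≤ b := by
      intro x hx y hy
      have e : μ x - μ y = (∑ g ∈ Tup X m, (F (Fin.cons x g) - F (Fin.cons y g))) / s ^ m := by
        show (∑ g ∈ Tup X m, F (Fin.cons x g)) / s ^ m - (∑ g ∈ Tup X m, F (Fin.cons y g)) / s ^ m = _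
        rw [sum_sub_distrib, sub_div]
      have hsm : 0 < s ^ m := pow_pos hs0 m
      rw [e, abs_div, abs_of_pos hsm, div_le_iff₀ hsm]
      refine (abs_sum_le_sum_abs _ _).trans ?_
      refine (sum_le_sum (g := fun _ => b) fun g hg => ?_).trans ?_
      · have h1 := hF (Fin.cons y g) (hmem y hy g hg) 0 x hx
        rw [Fin.update_cons_zero] at h1
        exact h1
      · rw [sum_const, card_tup, nsmul_eq_mul, Nat.cast_pow, ← hs, mul_comm]
    rw [hsum, sum_insert X 0]
    simp_rw [hcons]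
    have h1 : ∀ x ∈ X, ∑ g ∈ Tup X m, Real.exp (l * (F (Fin.cons x g) - (∑ y ∈ X, μ y) / s)) ≤
        (s ^ m * Real.exp (m * (l * b) ^ 2)) * Real.exp (l * (μ x - (∑ y ∈ X, μ y) / s)) := by
      intro x hx
      have h2 := ih (fun g => F (Fin.cons x g)) (by
        intro g hg i y hy
        have h3 := hF (Fin.cons x g) (hmem x hx g hg) i.succ y hy
        rw [← Fin.cons_update] at h3
        exact h3)
      have h3 : ∀ g ∈ Tup X m, Real.exp (l * (F (Fin.cons x g) - (∑ y ∈ X, μ y) / s)) =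
          Real.exp (l * (F (Fin.cons x g) - μ x)) *
            Real.exp (l * (μ x - (∑ y ∈ X, μ y) / s)) := by
        intro g _
        rw [← Real.exp_add]
        congr 1
        ring
      rw [sum_congr rfl h3, ← sum_mul]
      exact mul_le_mul_of_nonneg_right h2 (Real.exp_pos _).le
    refine (sum_le_sum h1).trans ?_
    rw [← mul_sum]
    refine (mul_le_mul_of_nonneg_left (one_step X hX hl hlb μ hμ) (by positivity)).trans
      (le_of_eq ?_)
    have e : Real.exp (((m + 1 : ℕ) : ℝ) * (l * b) ^ 2) = Real.exp (m * (l * b) ^ 2) *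
        Real.exp ((l * b) ^ 2) := by
      rw [← Real.exp_add]
      congr 1
      push_cast
      ring
    rw [e, ← hs]
    ring

/-- upper tail -/
theorem tail (X : Finset V) (hX : X.Nonempty) {b l : ℝ} (hl : 0 ≤ l) (hlb : l * b ≤ 1)
    {m : ℕ} (F : (Fin m → V) → ℝ)
    (hF : ∀ f ∈ Tup X m, ∀ i, ∀ x ∈ X, |F (Function.update f i x) - F f| ≤ b) {μ C : ℝ}
    (hμ : ∑ g ∈ Tup X m, F g ≤ μ * (X.card : ℝ) ^ m) :
    (((Tup X m).filter (fun f => ¬ F f ≤ C)).card : ℝ) ≤
      (X.card : ℝ) ^ m * Real.exp (m * (l * b) ^ 2 - l * (C - μ)) := by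
  have hs0 : (0:ℝ) < X.card := by exact_mod_cast hX.card_pos
  have h1 := mgf X hX hl hlb m F hF
  set s : ℝ := (X.card : ℝ) with hs
  set ν := (∑ g ∈ Tup X m, F g) / s ^ m with hν
  have hνμ : ν ≤ μ := by rw [hν, div_le_iff₀ (by positivity)]; exact hμ
  have h2 : ∀ f ∈ Tup X m, (if ¬ F f ≤ C then (1:ℝ) else 0) ≤
      Real.exp (l * (F f - ν)) * Real.exp (-(l * (C - μ))) := by
    intro f _
    rw [← Real.exp_add]
    split_ifs with h
    · positivity
    · push Not at h
      rw [← Real.exp_zero]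
      apply Real.exp_le_exp.2
      nlinarith
  have h3 := sum_le_sum h2
  rw [sum_boole, ← sum_mul] at h3
  refine h3.trans ((mul_le_mul_of_nonneg_right h1 (Real.exp_pos _).le).trans (le_of_eq ?_))
  rw [mul_assoc, ← Real.exp_add, ← sub_eq_add_neg]

end Pool.Agent.T2H11.HN
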