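import Pool.Agent.T2H11.HN.Main
import Pool.Agent.T2H11.SM.Final

set_option autoImplicit false

/-!
# Asymptotic form
-/

open Finset Filter Topology

namespace Pool.Agent.T2H11.HN

open Pool.Agent.T2H11.SM (Tup mem_tup card_tup small_nat)

/-- the numerical part -/
lemma numeric (q : ℕ) {M ε : ℝ} (hM : 1 ≤ M) (hε : 0 < ε) :
    ∃ K : ℕ, ∀ m : ℕ, K ≤ m → q + 1 ≤ m ∧
      ((m:ℝ) + 1) * ((m + 1) * Real.exp (-(ε * (m + 1) - 2 * M / ε)) +
        Real.exp (-(m * (ε / 2) ^ 2 / (4 * (q + 1) ^ 2 * M ^ 2)))) ≤ ε / 2 ∧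
      ((m:ℝ) + 1) ^ 2 * Real.exp (-(ε / 2 * (m + 1) - 2 * M / ε)) ≤ ε / 2 := by
  set b : ℝ := (ε / 2) ^ 2 / (4 * (q + 1) ^ 2 * M ^ 2) with hb
  have hb0 : 0 < b := by positivity
  have h1 := small_nat hε 2 (Real.exp (2 * M / ε))
  have h2 := small_nat hb0 1 (Real.exp b)
  have h3 := small_nat (half_pos hε) 2 (Real.exp (2 * M / ε))
  have e4 : (0:ℝ) < ε / 4 := by positivity
  have h1' := (tendsto_order.1 h1).2 _ e4
  have h2' := (tendsto_order.1 h2).2 _ e4
  have h3' := (tendsto_order.1 h3).2 _ e4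
  obtain ⟨K, hK⟩ := eventually_atTop.1 (h1'.and (h2'.and (h3'.and (eventually_ge_atTop (q + 2)))))
  refine ⟨K, fun m hm => ?_⟩
  obtain ⟨a1, a2, a3, -⟩ := hK (m + 1) (by omega)
  have a4 := (hK (max K (m + 1)) (le_max_left _ _)).2.2.2
  have hKq : q + 2 ≤ K := (hK K le_rfl).2.2.2
  push_cast at a1 a2 a3
  refine ⟨by omega, ?_, ?_⟩
  · have e1 : Real.exp (-(ε * ((m:ℝ) + 1) - 2 * M / ε)) =
        Real.exp (2 * M / ε) * Real.exp (-(ε * (m + 1))) := by
      rw [← Real.exp_add]; congr 1; ring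
    have e2 : Real.exp (-((m:ℝ) * (ε / 2) ^ 2 / (4 * (q + 1) ^ 2 * M ^ 2))) =
        Real.exp b * Real.exp (-(b * (m + 1))) := by
      rw [← Real.exp_add, hb]; congr 1; ring
    rw [e1, e2]
    have e3 : ((m:ℝ) + 1) * ((m + 1) * (Real.exp (2 * M / ε) * Real.exp (-(ε * (m + 1)))) +
        Real.exp b * Real.exp (-(b * (m + 1)))) =
        Real.exp (2 * M / ε) * (((m:ℝ) + 1) ^ 2 * Real.exp (-(ε * (m + 1)))) +
        Real.exp b * (((m:ℝ) + 1) ^ 1 * Real.exp (-(b * (m + 1)))) := by ring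
    rw [e3]
    linarith
  · have e1 : Real.exp (-(ε / 2 * ((m:ℝ) + 1) - 2 * M / ε)) =
        Real.exp (2 * M / ε) * Real.exp (-(ε / 2 * (m + 1))) := by
      rw [← Real.exp_add]; congr 1; ring
    rw [e1]
    have e2 : ((m:ℝ) + 1) ^ 2 * (Real.exp (2 * M / ε) * Real.exp (-(ε / 2 * (m + 1)))) =
        Real.exp (2 * M / ε) * (((m:ℝ) + 1) ^ 2 * Real.exp (-(ε / 2 * (m + 1)))) := by ring
    rw [e2]
    linarith

/-- the number of enumerations of a set -/
lemma card_enum {V : Type} [Fintype V] [DecidableEq V] {r : ℕ} {e : Finset V} (he : e.card = r) :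
    ((Tup (univ : Finset V) r).filter (fun y => univ.image y = e)).card ≤ r.factorial := by
  classical
  let g : Fin r → V := fun i => (e.equivFinOfCardEq he).symm i
  have hginj : Function.Injective g := fun a b hab =>
    (e.equivFinOfCardEq he).symm.injective (Subtype.ext hab)
  have h1 : (Tup (univ : Finset V) r).filter (fun y => univ.image y = e) ⊆
      univ.image (fun π : Equiv.Perm (Fin r) => fun i => g (π i)) := by
    intro y hy
    rw [mem_filter] at hy
    have hy2 := hy.2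
    have hyinj : Function.Injective y := by
      have h2 : Set.InjOn y ((univ : Finset (Fin r)) : Set (Fin r)) :=
        card_image_iff.1 (by rw [hy2, he, card_univ, Fintype.card_fin])
      exact fun a b hab => h2 (mem_coe.2 (mem_univ a)) (mem_coe.2 (mem_univ b)) hab
    have hmem : ∀ i, y i ∈ e := fun i => by
      rw [← hy2]; exact mem_image_of_mem _ (mem_univ i)
    let π : Fin r → Fin r := fun i => e.equivFinOfCardEq he ⟨y i, hmem i⟩
    have hπ : Function.Injective π := by
      intro a b hab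
      have := (e.equivFinOfCardEq he).injective hab
      exact hyinj (Subtype.mk.inj this)
    have hπb : Function.Bijective π := Finite.injective_iff_bijective.1 hπ
    rw [mem_image]
    refine ⟨Equiv.ofBijective π hπb, mem_univ _, ?_⟩
    funext i
    show ((e.equivFinOfCardEq he).symm (e.equivFinOfCardEq he ⟨y i, hmem i⟩) : V) = y i
    rw [Equiv.symm_apply_apply]
  refine (card_le_card h1).trans (card_image_le.trans ?_)
  rw [card_univ, Fintype.card_perm, Fintype.card_fin]

lemma En_le {V : Type} [Fintype V] [DecidableEq V] {r : ℕ} {p : Finset V → ℝ}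
    (hp0 : ∀ e ∈ Ed V r, 0 < p e) (hp1 : ∀ e ∈ Ed V r, p e ≤ 1) :
    En (lw r p) univ r ≤ (r.factorial : ℝ) * ∑ e ∈ Ed V r, -Real.log (p e) := by
  classical
  unfold En
  have h1 : ∑ y ∈ Tup (univ : Finset V) r, lw r p (univ.image y) =
      ∑ e : Finset V, ∑ y ∈ (Tup (univ : Finset V) r).filter (fun y => univ.image y = e),
        lw r p (univ.image y) :=
    (sum_fiberwise_of_maps_to (fun y _ => mem_univ _) _).symm
  rw [h1]
  have h2 : ∀ e : Finset V, ∑ y ∈ (Tup (univ : Finset V) r).filter (fun y => univ.image y = e),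
        lw r p (univ.image y) ≤ if e ∈ Ed V r then (r.factorial : ℝ) * -Real.log (p e) else 0 := by
    intro e
    have h3 : ∀ y ∈ (Tup (univ : Finset V) r).filter (fun y => univ.image y = e),
        lw r p (univ.image y) = lw r p e := fun y hy => by rw [(mem_filter.1 hy).2]
    rw [sum_congr rfl h3, sum_const, nsmul_eq_mul]
    unfold lw
    by_cases he : e.card = r
    · rw [if_pos he, if_pos (mem_ed.2 he)]
      refine mul_le_mul_of_nonneg_right (by exact_mod_cast card_enum he) ?_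
      exact neg_nonneg.2 (Real.log_nonpos (hp0 e (mem_ed.2 he)).le (hp1 e (mem_ed.2 he)))
    · rw [if_neg he, mul_zero, if_neg (fun h => he (mem_ed.1 h))]
  refine (sum_le_sum fun e _ => h2 e).trans (le_of_eq ?_)
  rw [← sum_filter, filter_mem_eq_inter, univ_inter, mul_sum]

/-- **Cliques in random `r`-graphs with independent edges.** -/
theorem clique_whp (q : ℕ) {M ε : ℝ} (hM : 1 ≤ M) (hε : 0 < ε) (hε1 : ε ≤ 1) :
    ∃ K : ℕ, ∀ m : ℕ, K ≤ m → ∀ (V : Type) [Fintype V] [DecidableEq V] (p : Finset V → ℝ) (c : ℝ),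
      (∀ e ∈ Ed V (q + 2), Real.exp (-M) ≤ p e ∧ p e ≤ 1) → 0 ≤ c → c ≤ M →
      En (lw (q + 2) p) univ (q + 2) ≤ c * (Fintype.card V : ℝ) ^ (q + 2) →
      Real.exp ((c / (q + 2).factorial + ε) * ((m:ℝ) + 1) ^ (q + 1)) ≤ Fintype.card V →
      1 - ε ≤ prob (Ed V (q + 2)) p (HasClique (q + 2) (m + 1)) := by
  obtain ⟨K, hK⟩ := numeric q hM hε
  refine ⟨K, fun m hm V _ _ p c hp hc0 hcM hEn hn => ?_⟩
  obtain ⟨hqm, hn1, hn2⟩ := hK m hm
  set k : ℝ := (m:ℝ) + 1 with hk
  have hk1 : 1 ≤ k := by rw [hk]; linarith [Nat.cast_nonneg (α := ℝ) m]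
  have hkq : k ≤ k ^ (q + 1) := by
    calc k = k ^ 1 := (pow_one k).symm
      _ ≤ k ^ (q + 1) := pow_le_pow_right₀ hk1 (by omega)
  have hV : Nonempty V := by
    rw [← Fintype.card_pos_iff]
    have : (0:ℝ) < Fintype.card V := (Real.exp_pos _).trans_le hn
    exact_mod_cast this
  set w := lw (q + 2) p with hw
  have hp0 : ∀ e ∈ Ed V (q + 2), 0 < p e := fun e he => (Real.exp_pos _).trans_le (hp e he).1
  have hw0 : ∀ S, 0 ≤ w S := by
    intro S
    rw [hw]
    unfold lw
    split_ifs with h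
    · have hd := mem_ed.2 h
      exact neg_nonneg.2 (Real.log_nonpos (hp0 _ hd).le (hp _ hd).2)
    · exact le_rfl
  have hwM : ∀ S, w S ≤ M := by
    intro S
    rw [hw]
    unfold lw
    split_ifs with h
    · have h1 := Real.log_le_log (Real.exp_pos _) (hp _ (mem_ed.2 h)).1
      rw [Real.log_exp] at h1
      linarith
    · linarith
  have hwz : ∀ S : Finset V, S.card ≠ q + 1 + 1 → w S = 0 := by
    intro S hS
    rw [hw]
    unfold lw
    rw [if_neg hS]
  have hτ : 0 < ε / 2 := by positivity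
  obtain ⟨X, hX, hXc, hXd⟩ := exists_regular hw0 (q := q + 1) (by omega) hwz hEn hτ
  set s : ℝ := (X.card : ℝ) with hs
  have hs0 : 0 < s := by rw [hs]; exact_mod_cast hX.card_pos
  set F : ℝ := ((q + 2).factorial : ℝ) with hF
  have hF1 : 1 ≤ F := by rw [hF]; exact_mod_cast Nat.one_le_iff_ne_zero.2 (Nat.factorial_ne_zero _)
  have hF0 : 0 < F := by linarith
  -- size of `X`
  have hsl : Real.exp (ε * k ^ (q + 1) - 2 * M / ε + c / F * k ^ (q + 1)) ≤ s := by
    refine le_trans ?_ hXc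
    have h1 : Real.exp ((c / F + ε) * k ^ (q + 1)) * Real.exp (-(c / (ε / 2))) ≤
        (Fintype.card V : ℝ) * Real.exp (-(c / (ε / 2))) :=
      mul_le_mul_of_nonneg_right hn (Real.exp_pos _).le
    refine le_trans ?_ h1
    rw [← Real.exp_add]
    apply Real.exp_le_exp.2
    have h2 : c / (ε / 2) ≤ 2 * M / ε := by
      rw [div_le_div_iff₀ (by positivity) hε]
      nlinarith
    linarith
  have hcF : 0 ≤ c / F := by positivity
  have hkpow : 0 ≤ k ^ (q + 1) := by positivity
  have hsl2 : Real.exp (ε * k - 2 * M / ε) ≤ s := by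
    refine le_trans (Real.exp_le_exp.2 ?_) hsl
    have h1 : ε * k ≤ ε * k ^ (q + 1) := mul_le_mul_of_nonneg_left hkq hε.le
    have h2 : 0 ≤ c / F * k ^ (q + 1) := mul_nonneg hcF hkpow
    linarith
  have hM0 : 0 < M := by linarith
  have hgood := card_good X hX hw0 hwM hM0 hqm hτ.le (by linarith) hXd
  rw [← hs, ← hk] at hgood
  set D := (m.choose (q + 1) : ℝ) * (c + ε / 2 + ε / 2) with hD
  set g : ℝ := ((Good w X (q + 1) m D).card : ℝ) with hg
  have hg1 : 1 - ε / 2 ≤ g / s ^ (m + 1) := by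
    rw [le_div_iff₀ (by positivity)]
    have h1 : s ^ m = s ^ (m + 1) / s := by
      rw [eq_div_iff hs0.ne', ← pow_succ]
    rw [h1] at hgood
    have h2 : k * (s ^ (m + 1) / s) ≤ s ^ (m + 1) * (k * Real.exp (-(ε * k - 2 * M / ε))) := by
      have h3 : 1 / s ≤ Real.exp (-(ε * k - 2 * M / ε)) := by
        rw [Real.exp_neg, ← one_div]
        exact one_div_le_one_div_of_le (Real.exp_pos _) hsl2
      calc k * (s ^ (m + 1) / s) = s ^ (m + 1) * (k * (1 / s)) := by ring
        _ ≤ _ := by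
          refine mul_le_mul_of_nonneg_left (mul_le_mul_of_nonneg_left h3 (by positivity))
            (by positivity)
    have h3 : k * (k * (s ^ (m + 1) / s) +
        s ^ (m + 1) * Real.exp (-(m * (ε / 2) ^ 2 / (4 * (q + 1) ^ 2 * M ^ 2)))) ≤
        s ^ (m + 1) * (ε / 2) := by
      calc k * (k * (s ^ (m + 1) / s) +
            s ^ (m + 1) * Real.exp (-(m * (ε / 2) ^ 2 / (4 * (q + 1) ^ 2 * M ^ 2))))
          ≤ k * (s ^ (m + 1) * (k * Real.exp (-(ε * k - 2 * M / ε))) +
            s ^ (m + 1) * Real.exp (-(m * (ε / 2) ^ 2 / (4 * (q + 1) ^ 2 * M ^ 2)))) := by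
            refine mul_le_mul_of_nonneg_left ?_ (by positivity)
            linarith
        _ = s ^ (m + 1) * (k * (k * Real.exp (-(ε * k - 2 * M / ε)) +
            Real.exp (-(m * (ε / 2) ^ 2 / (4 * (q + 1) ^ 2 * M ^ 2))))) := by ring
        _ ≤ _ := mul_le_mul_of_nonneg_left hn1 (by positivity)
    nlinarith
  have hgpos : 0 < (Good w X (q + 1) m D).card := by
    by_contra hcon
    have h0 : (Good w X (q + 1) m D).card = 0 := by omega
    rw [hg, h0] at hg1
    simp only [Nat.cast_zero, zero_div] at hg1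
    linarith
  have hfin := prob_clique (q := q + 1) (D := D) hp0 (fun e he => (hp e he).2) hX hgpos
  refine le_trans ?_ hfin
  rw [← hs, ← hg, ← hk]
  have hDb : D / ((q + 1 : ℕ) + 1) ≤ (c + ε) / F * k ^ (q + 1) := by
    have h1 : (m.choose (q + 1) : ℝ) ≤ k ^ (q + 1) / ((q + 1).factorial : ℝ) := by
      have h2 := Nat.choose_le_pow_div (α := ℝ) (q + 1) m
      refine h2.trans ?_
      refine div_le_div_of_nonneg_right ?_ (by positivity)
      exact pow_le_pow_left₀ (Nat.cast_nonneg m) (by rw [hk]; linarith) _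
    have hFF : F = (q + 1 + 1) * ((q + 1).factorial : ℝ) := by
      rw [hF]
      have := Nat.factorial_succ (q + 1)
      rw [show q + 1 + 1 = q + 2 from rfl] at this
      rw [this]
      push_cast
      ring
    have h3 : D ≤ k ^ (q + 1) / ((q + 1).factorial : ℝ) * (c + ε) := by
      rw [hD]
      have : c + ε / 2 + ε / 2 = c + ε := by ring
      rw [this]
      exact mul_le_mul_of_nonneg_right h1 (by linarith)
    rw [hFF, div_le_iff₀ (by positivity)]
    refine h3.trans (le_of_eq ?_)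
    push_cast
    field_simp
  have h5 : k ^ 2 * Real.exp (D / ((q + 1 : ℕ) + 1)) / s ≤ ε / 2 := by
    refine le_trans ?_ hn2
    rw [div_le_iff₀ hs0, mul_assoc]
    refine mul_le_mul_of_nonneg_left ?_ (by positivity)
    refine (Real.exp_le_exp.2 hDb).trans ?_
    have h6 : Real.exp ((c + ε) / F * k ^ (q + 1)) ≤ Real.exp (-(ε / 2 * k - 2 * M / ε)) *
        Real.exp (ε * k ^ (q + 1) - 2 * M / ε + c / F * k ^ (q + 1)) := by
      rw [← Real.exp_add]
      apply Real.exp_le_exp.2
      have e1 : (c + ε) / F * k ^ (q + 1) = c / F * k ^ (q + 1) + ε / F * k ^ (q + 1) := by ring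
      have hF2 : 2 ≤ F := by
        rw [hF]
        have : 2 ≤ (q + 2).factorial := by
          calc 2 = (2).factorial := rfl
            _ ≤ (q + 2).factorial := Nat.factorial_le (by omega)
        exact_mod_cast this
      have e2 : ε / F ≤ ε / 2 := div_le_div_of_nonneg_left hε.le (by norm_num) hF2
      have e3 := mul_le_mul_of_nonneg_right e2 hkpow
      have e4 := mul_le_mul_of_nonneg_left hkq (by positivity : 0 ≤ ε / 2)
      linarith
    refine h6.trans ?_
    exact mul_le_mul_of_nonneg_left hsl (Real.exp_pos _).le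
  have h6 : 1 - ε / 2 ≤ Real.exp (-(k ^ 2 * Real.exp (D / ((q + 1 : ℕ) + 1)) / s)) := by
    have := Real.add_one_le_exp (-(k ^ 2 * Real.exp (D / ((q + 1 : ℕ) + 1)) / s))
    linarith
  have h7 : (1 - ε / 2) * (1 - ε / 2) ≤
      g / s ^ (m + 1) * Real.exp (-(k ^ 2 * Real.exp (D / ((q + 1 : ℕ) + 1)) / s)) :=
    mul_le_mul hg1 h6 (by linarith) (by linarith)
  nlinarith [sq_nonneg ε]

end Pool.Agent.T2H11.HN
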