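import Pool.Agent.T2H11.HN.Weights

set_option autoImplicit false

/-!
# Regular sets of vertices and typical tuples
-/

open Finset

namespace Pool.Agent.T2H11.HN

open Pool.Agent.T2H11.SM

variable {V : Type} [DecidableEq V]

/-- Deleting single vertices one finds a large set in which no vertex has a large potential. -/
theorem exists_regular [Fintype V] [Nonempty V] {w : Finset V → ℝ} (hw0 : ∀ S, 0 ≤ w S) {q : ℕ}
    (hq : 1 ≤ q) (hw : ∀ S : Finset V, S.card ≠ q + 1 → w S = 0) {c τ : ℝ}
    (hc : En w univ (q + 1) ≤ c * (Fintype.card V : ℝ) ^ (q + 1)) (hτ : 0 < τ) :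
    ∃ X : Finset V, X.Nonempty ∧ (Fintype.card V : ℝ) * Real.exp (-(c / τ)) ≤ X.card ∧
      ∀ x ∈ X, P w X q x ≤ (c + τ) * (X.card : ℝ) ^ q := by
  classical
  set n : ℝ := (Fintype.card V : ℝ) with hn
  have hn0 : 0 < n := by rw [hn]; exact_mod_cast Fintype.card_pos
  have hE0 : ∀ X : Finset V, 0 ≤ En w X (q + 1) := fun X => sum_nonneg fun x _ => hw0 _
  have hP0 : ∀ (X : Finset V) (x : V), 0 ≤ P w X q x := fun X x => sum_nonneg fun x _ => hw0 _
  have hc0 : 0 ≤ c := by
    by_contra h
    push Not at h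
    have h1 := hE0 univ
    have h2 : 0 < n ^ (q + 1) := by positivity
    nlinarith
  let F : Finset V → ℝ := fun X => En w X (q + 1) / (X.card : ℝ) ^ (q + 1) - τ * Real.log X.card
  obtain ⟨X, hX, hmin⟩ := exists_min_image ((univ : Finset (Finset V)).filter (fun X => X.Nonempty)) F
    ⟨univ, by simp⟩
  rw [mem_filter] at hX
  have hXn := hX.2
  have hmin' : ∀ Y : Finset V, Y.Nonempty → F X ≤ F Y := fun Y hY => hmin Y (by simp [hY])
  set s : ℝ := (X.card : ℝ) with hs
  have hs1 : 1 ≤ s := by rw [hs]; exact_mod_cast hXn.card_pos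
  have hs0 : 0 < s := by linarith
  have hsn : s ≤ n := by rw [hs, hn]; exact_mod_cast card_le_univ X
  have hFu := hmin' univ univ_nonempty
  have hFu' : En w X (q + 1) / s ^ (q + 1) - τ * Real.log s ≤ c - τ * Real.log n := by
    refine hFu.trans ?_
    show En w univ (q + 1) / ((univ : Finset V).card : ℝ) ^ (q + 1) -
      τ * Real.log (univ : Finset V).card ≤ _
    rw [card_univ, ← hn]
    have : En w univ (q + 1) / n ^ (q + 1) ≤ c := by
      rw [div_le_iff₀ (by positivity)]; exact hc
    linarith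
  have hlog : Real.log s ≤ Real.log n := Real.log_le_log hs0 hsn
  have hEs' : En w X (q + 1) / s ^ (q + 1) ≤ c := by nlinarith
  refine ⟨X, hXn, ?_, ?_⟩
  · have h1 : 0 ≤ En w X (q + 1) / s ^ (q + 1) := div_nonneg (hE0 X) (by positivity)
    have h2 : τ * (Real.log n - Real.log s) ≤ c := by linarith
    have h3 : Real.log n - Real.log s ≤ c / τ := by
      rw [le_div_iff₀ hτ]; linarith
    have h4 : Real.log n + -(c / τ) ≤ Real.log s := by linarith
    have h5 := Real.exp_le_exp.2 h4
    rw [Real.exp_add, Real.exp_log hn0, Real.exp_log hs0] at h5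
    exact h5
  · intro x hx
    by_cases h1 : X.card = 1
    · have h2 : P w X q x = 0 := by
        unfold P
        refine sum_eq_zero fun y hy => hw _ ?_
        have h3 : insert x (univ.image y) ⊆ X := by
          intro z hz
          rcases mem_insert.1 hz with rfl | hz
          · exact hx
          · obtain ⟨i, -, rfl⟩ := mem_image.1 hz
            exact mem_tup.1 hy i
        have h4 := card_le_card h3
        omega
      rw [h2]
      positivity
    · have h2 : 2 ≤ X.card := by
        have := hXn.card_pos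
        omega
      have hs2 : 2 ≤ s := by rw [hs]; exact_mod_cast h2
      have hYn : (X.erase x).Nonempty := by
        rw [← card_pos, card_erase_of_mem hx]; omega
      have h3 := hmin' _ hYn
      have hcard : ((X.erase x).card : ℝ) = s - 1 := by
        rw [card_erase_of_mem hx, Nat.cast_sub (by omega), ← hs]; simp
      set E := En w X (q + 1) with hE
      set d := P w X q x with hd
      have hEe : En w (X.erase x) (q + 1) = E - (q + 1) * d := by
        have := En_erase hw hx
        linarith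
      have h4 : E / s ^ (q + 1) - τ * Real.log s ≤
          (E - (q + 1) * d) / (s - 1) ^ (q + 1) - τ * Real.log (s - 1) := by
        have : F (X.erase x) = (E - (q + 1) * d) / (s - 1) ^ (q + 1) - τ * Real.log (s - 1) := by
          show En w (X.erase x) (q + 1) / ((X.erase x).card : ℝ) ^ (q + 1) -
            τ * Real.log (X.erase x).card = _
          rw [hEe, hcard]
        rw [← this]
        exact h3
      have hs1' : 0 < s - 1 := by linarith
      have hl : Real.log s - Real.log (s - 1) ≤ 1 / (s - 1) := by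
        rw [← Real.log_div (by linarith) (by linarith)]
        have := Real.log_le_sub_one_of_pos (show 0 < s / (s - 1) from div_pos hs0 (by linarith))
        have e : s / (s - 1) - 1 = 1 / (s - 1) := by
          field_simp
          ring
        linarith
      have hpw : 0 < (s - 1) ^ (q + 1) := by positivity
      have h5 : (q + 1) * d / (s - 1) ^ (q + 1) ≤
          E / (s - 1) ^ (q + 1) - E / s ^ (q + 1) + τ * (1 / (s - 1)) := by
        rw [sub_div] at h4
        have : τ * (Real.log s - Real.log (s - 1)) ≤ τ * (1 / (s - 1)) :=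
          mul_le_mul_of_nonneg_left hl hτ.le
        linarith
      have h6 : (q + 1) * d ≤ E - E / s ^ (q + 1) * (s - 1) ^ (q + 1) + τ * (s - 1) ^ q := by
        have h7 := mul_le_mul_of_nonneg_right h5 hpw.le
        have e1 : (q + 1) * d / (s - 1) ^ (q + 1) * (s - 1) ^ (q + 1) = (q + 1) * d := by
          field_simp
        have e2 : (E / (s - 1) ^ (q + 1) - E / s ^ (q + 1) + τ * (1 / (s - 1))) *
            (s - 1) ^ (q + 1) = E - E / s ^ (q + 1) * (s - 1) ^ (q + 1) + τ * (s - 1) ^ q := by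
          have : (s - 1) ^ (q + 1) = (s - 1) ^ q * (s - 1) := pow_succ _ _
          rw [add_mul, sub_mul, this]
          field_simp
        rw [e1, e2] at h7
        exact h7
      -- Bernoulli
      have hbern : s ^ (q + 1) - (s - 1) ^ (q + 1) ≤ (q + 1) * s ^ q := by
        have h8 := pow_sub_le hs1 (q + 1)
        rw [Nat.add_sub_cancel] at h8
        push_cast at h8
        linarith
      have h8 : E - E / s ^ (q + 1) * (s - 1) ^ (q + 1) ≤ c * ((q + 1) * s ^ q) := by
        have e : E - E / s ^ (q + 1) * (s - 1) ^ (q + 1) =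
            E / s ^ (q + 1) * (s ^ (q + 1) - (s - 1) ^ (q + 1)) := by
          field_simp
        rw [e]
        have h9 : 0 ≤ E / s ^ (q + 1) := div_nonneg (hE0 X) (by positivity)
        have h10 : (0:ℝ) ≤ (q + 1) * s ^ q := by positivity
        calc E / s ^ (q + 1) * (s ^ (q + 1) - (s - 1) ^ (q + 1))
            ≤ E / s ^ (q + 1) * ((q + 1) * s ^ q) := mul_le_mul_of_nonneg_left hbern h9
          _ ≤ _ := mul_le_mul_of_nonneg_right hEs' h10
      have h9 : (s - 1) ^ q ≤ s ^ q := pow_le_pow_left₀ hs1'.le (by linarith) q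
      have h10 : τ * (s - 1) ^ q ≤ τ * s ^ q := mul_le_mul_of_nonneg_left h9 hτ.le
      have h11 : (0:ℝ) ≤ q * (τ * s ^ q) := by positivity
      have h12 : ((q:ℝ) + 1) * d ≤ (q + 1) * ((c + τ) * s ^ q) := by nlinarith
      exact le_of_mul_le_mul_left h12 (by positivity)

/-- the typical tuples -/
noncomputable def Good (w : Finset V → ℝ) (X : Finset V) (q m : ℕ) (D : ℝ) :
    Finset (Fin (m + 1) → V) := by
  classical
  exact (Tup X (m + 1)).filter (fun f => ∀ i, (∀ j ∈ univ.erase i, f j ≠ f i) ∧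
    G w q (f i) (i.removeNth f) ≤ D)

lemma mem_good {w : Finset V → ℝ} {X : Finset V} {q m : ℕ} {D : ℝ} {f : Fin (m + 1) → V} :
    f ∈ Good w X q m D ↔ (∀ i, f i ∈ X) ∧ Function.Injective f ∧
      ∀ i, G w q (f i) (i.removeNth f) ≤ D := by
  unfold Good
  rw [mem_filter, mem_tup]
  constructor
  · rintro ⟨h1, h2⟩
    refine ⟨h1, fun i j hij => ?_, fun i => (h2 i).2⟩
    by_contra hne
    exact (h2 j).1 i (mem_erase.2 ⟨hne, mem_univ i⟩) hij
  · rintro ⟨h1, h2, h3⟩
    exact ⟨h1, fun i => ⟨fun j hj he => ne_of_mem_erase hj (h2 he), h3 i⟩⟩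

/-- large potentials are rare -/
lemma bad_b (X : Finset V) (hX : X.Nonempty) {w : Finset V → ℝ} {M c η : ℝ} (hw0 : ∀ S, 0 ≤ w S)
    (hwM : ∀ S, w S ≤ M) (hM : 0 < M) {q m : ℕ} (hqm : q + 1 ≤ m) (hη : 0 ≤ η)
    (hηM : η ≤ M) (hc : ∀ x ∈ X, P w X (q + 1) x ≤ c * (X.card : ℝ) ^ (q + 1)) (i : Fin (m + 1)) :
    (((Tup X (m + 1)).filter (fun f => ¬ G w (q + 1) (f i) (i.removeNth f) ≤
        (m.choose (q + 1) : ℝ) * (c + η))).card : ℝ) ≤
      (X.card : ℝ) ^ (m + 1) * Real.exp (-(m * η ^ 2 / (4 * (q + 1) ^ 2 * M ^ 2))) := by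
  classical
  have hs0 : (0:ℝ) < X.card := by exact_mod_cast hX.card_pos
  set s : ℝ := (X.card : ℝ) with hs
  set b : ℝ := (m - 1).choose q * M with hb
  have hch : 0 < ((m - 1).choose q : ℝ) := by exact_mod_cast Nat.choose_pos (by omega)
  have hb0 : 0 < b := by positivity
  set t : ℝ := η / (2 * (q + 1) * M) with ht
  have ht0 : 0 ≤ t := by positivity
  have ht1 : t ≤ 1 := by
    rw [ht, div_le_one (by positivity)]
    have : (0:ℝ) ≤ q := Nat.cast_nonneg q
    nlinarith
  set l := t / b with hl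
  have hl0 : 0 ≤ l := by positivity
  have hlb : l * b = t := by rw [hl]; field_simp
  have h1 : ∀ x ∈ X, (((Tup X m).filter (fun g => ¬ G w (q + 1) x g ≤
      (m.choose (q + 1) : ℝ) * (c + η))).card : ℝ) ≤
      s ^ m * Real.exp (-(m * η ^ 2 / (4 * (q + 1) ^ 2 * M ^ 2))) := by
    intro x hx
    have h2 := tail X hX hl0 (b := b) (by rw [hlb]; exact ht1) (fun g => G w (q + 1) x g)
      (fun g _ i y _ => G_lip hw0 hwM q x g i y) (μ := m.choose (q + 1) * c)
      (C := m.choose (q + 1) * (c + η)) (by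
        rw [sum_G w X x, mul_assoc]
        refine mul_le_mul_of_nonneg_left ?_ (Nat.cast_nonneg _)
        rw [← hs]
        calc s ^ (m - (q + 1)) * P w X (q + 1) x ≤ s ^ (m - (q + 1)) * (c * s ^ (q + 1)) :=
              mul_le_mul_of_nonneg_left (hc x hx) (by positivity)
          _ = c * (s ^ (m - (q + 1)) * s ^ (q + 1)) := by ring
          _ = c * s ^ m := by rw [← pow_add, Nat.sub_add_cancel hqm])
    refine h2.trans (le_of_eq ?_)
    rw [← hs, hlb]
    congr 2
    have e1 : (m.choose (q + 1) : ℝ) * (q + 1) = m * (m - 1).choose q := by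
      obtain ⟨m', rfl⟩ : ∃ m', m = m' + 1 := ⟨m - 1, by omega⟩
      rw [Nat.add_sub_cancel]
      have := Nat.add_one_mul_choose_eq m' q
      have h3 : ((m' + 1 : ℕ) : ℝ) * (m'.choose q : ℝ) = ((m' + 1).choose (q + 1) : ℝ) *
          ((q + 1 : ℕ) : ℝ) := by exact_mod_cast this
      push_cast at h3 ⊢
      linarith
    have e2 : l * ((m.choose (q + 1) : ℝ) * (c + η) - m.choose (q + 1) * c) =
        m * η * t / ((q + 1) * M) := by
      have e3 : (m.choose (q + 1) : ℝ) = m * (m - 1).choose q / (q + 1) := by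
        rw [eq_div_iff (by positivity)]; exact e1
      rw [e3, hl, hb]
      field_simp
      ring
    rw [e2, ht]
    field_simp
    ring
  have h3 : (((Tup X (m + 1)).filter (fun f => ¬ G w (q + 1) (f i) (i.removeNth f) ≤
        (m.choose (q + 1) : ℝ) * (c + η))).card : ℝ) =
      ∑ x ∈ X, (((Tup X m).filter (fun g => ¬ G w (q + 1) x g ≤
      (m.choose (q + 1) : ℝ) * (c + η))).card : ℝ) := by
    rw [← sum_boole, sum_insert X i]
    refine sum_congr rfl fun x _ => ?_
    rw [← sum_boole]
    refine sum_congr rfl fun g _ => ?_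
    rw [Fin.insertNth_apply_same, Fin.removeNth_insertNth]
  rw [h3]
  refine (sum_le_sum h1).trans (le_of_eq ?_)
  rw [sum_const, nsmul_eq_mul, ← hs, pow_succ]
  ring

/-- almost all tuples are typical -/
theorem card_good (X : Finset V) (hX : X.Nonempty) {w : Finset V → ℝ} {M c η : ℝ}
    (hw0 : ∀ S, 0 ≤ w S) (hwM : ∀ S, w S ≤ M) (hM : 0 < M) {q m : ℕ} (hqm : q + 1 ≤ m)
    (hη : 0 ≤ η) (hηM : η ≤ M) (hc : ∀ x ∈ X, P w X (q + 1) x ≤ c * (X.card : ℝ) ^ (q + 1)) :
    (X.card : ℝ) ^ (m + 1) - (m + 1) * ((m + 1) * (X.card : ℝ) ^ m +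
      (X.card : ℝ) ^ (m + 1) * Real.exp (-(m * η ^ 2 / (4 * (q + 1) ^ 2 * M ^ 2)))) ≤
      (Good w X (q + 1) m ((m.choose (q + 1) : ℝ) * (c + η))).card := by
  classical
  set C := (m.choose (q + 1) : ℝ) * (c + η) with hC
  have h1 : Tup X (m + 1) ⊆ Good w X (q + 1) m C ∪ univ.biUnion (fun i : Fin (m + 1) =>
      (Tup X (m + 1)).filter (fun f => ¬ ∀ j ∈ univ.erase i, f j ≠ f i) ∪
      (Tup X (m + 1)).filter (fun f => ¬ G w (q + 1) (f i) (i.removeNth f) ≤ C)) := by
    intro f hf
    by_cases h : f ∈ Good w X (q + 1) m C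
    · exact mem_union_left _ h
    · refine mem_union_right _ ?_
      unfold Good at h
      rw [mem_filter, not_and] at h
      have h2 := h hf
      push Not at h2
      obtain ⟨i, hi⟩ := h2
      rw [mem_biUnion]
      refine ⟨i, mem_univ i, ?_⟩
      rw [mem_union, mem_filter, mem_filter]
      by_cases h3 : ∀ j ∈ univ.erase i, f j ≠ f i
      · exact Or.inr ⟨hf, not_le.2 (hi h3)⟩
      · exact Or.inl ⟨hf, h3⟩
  have h2 := (card_le_card h1).trans (card_union_le _ _)
  have h3 : ((univ.biUnion (fun i : Fin (m + 1) =>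
      (Tup X (m + 1)).filter (fun f => ¬ ∀ j ∈ univ.erase i, f j ≠ f i) ∪
      (Tup X (m + 1)).filter (fun f => ¬ G w (q + 1) (f i) (i.removeNth f) ≤ C))).card : ℝ) ≤
      (m + 1) * ((m + 1) * (X.card : ℝ) ^ m +
      (X.card : ℝ) ^ (m + 1) * Real.exp (-(m * η ^ 2 / (4 * (q + 1) ^ 2 * M ^ 2)))) := by
    refine (Nat.cast_le.2 card_biUnion_le).trans ?_
    push_cast
    refine (sum_le_sum (g := fun _ => (m + 1) * (X.card : ℝ) ^ m +
      (X.card : ℝ) ^ (m + 1) * Real.exp (-(m * η ^ 2 / (4 * (q + 1) ^ 2 * M ^ 2))))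
      fun i _ => ?_).trans ?_
    · refine (Nat.cast_le.2 (card_union_le _ _)).trans ?_
      rw [Nat.cast_add]
      refine add_le_add ?_ (bad_b X hX hw0 hwM hM hqm hη hηM hc i)
      have h4 := bad_a X hX i
      rw [Nat.add_sub_cancel] at h4
      push_cast at h4
      exact h4
    · rw [sum_const, card_univ, Fintype.card_fin, nsmul_eq_mul]
      push_cast
      exact le_rfl
  rw [card_tup] at h2
  have h4 : ((X.card ^ (m + 1) : ℕ) : ℝ) ≤ _ := Nat.cast_le.2 h2
  rw [Nat.cast_add, Nat.cast_pow] at h4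
  linarith

/-- the `(q + 1)`-sets inside `S` which contain `x` -/
lemma sum_containing (w : Finset V → ℝ) {q m : ℕ} {f : Fin (m + 1) → V}
    (hf : Function.Injective f) (i : Fin (m + 1)) :
    ∑ e ∈ (powersetCard (q + 1) (univ.image f)).filter (fun e => f i ∈ e), w e =
      G w q (f i) (i.removeNth f) := by
  classical
  unfold G
  have hg : Function.Injective (i.removeNth f) := by
    intro a b hab
    exact Fin.succAbove_right_injective (hf hab)
  refine sum_bij' (fun e _ => univ.filter (fun j => f (i.succAbove j) ∈ e))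
    (fun A _ => insert (f i) (A.image (i.removeNth f))) ?_ ?_ ?_ ?_ ?_
  · intro e he
    rw [mem_filter, mem_powersetCard] at he
    rw [mem_powersetCard]
    refine ⟨subset_univ _, ?_⟩
    have h1 : (univ.filter (fun j => f (i.succAbove j) ∈ e)).image (i.removeNth f) =
        e.erase (f i) := by
      ext v
      rw [mem_image, mem_erase]
      constructor
      · rintro ⟨j, hj, rfl⟩
        rw [mem_filter] at hj
        refine ⟨fun h => ?_, hj.2⟩
        exact Fin.succAbove_ne i j (hf h)
      · rintro ⟨h2, h3⟩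
        obtain ⟨j, -, rfl⟩ := mem_image.1 (he.1.1 h3)
        have h4 : j ≠ i := fun h => h2 (by rw [h])
        obtain ⟨j', rfl⟩ := Fin.exists_succAbove_eq h4
        exact ⟨j', mem_filter.2 ⟨mem_univ _, h3⟩, rfl⟩
    rw [← card_image_of_injective _ hg, h1, card_erase_of_mem he.2, he.1.2, Nat.add_sub_cancel]
  · intro A hA
    rw [mem_powersetCard] at hA
    have hni : f i ∉ A.image (i.removeNth f) := by
      intro h
      obtain ⟨j, -, hj⟩ := mem_image.1 h
      exact Fin.succAbove_ne i j (hf hj)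
    rw [mem_filter, mem_powersetCard]
    refine ⟨⟨?_, ?_⟩, mem_insert_self _ _⟩
    · intro v hv
      rcases mem_insert.1 hv with rfl | hv
      · exact mem_image_of_mem _ (mem_univ _)
      · obtain ⟨j, -, rfl⟩ := mem_image.1 hv
        exact mem_image_of_mem _ (mem_univ _)
    · rw [card_insert_of_notMem hni, card_image_of_injective _ hg, hA.2]
  · intro e he
    rw [mem_filter, mem_powersetCard] at he
    ext v
    rw [mem_insert, mem_image]
    constructor
    · rintro (rfl | ⟨j, hj, rfl⟩)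
      · exact he.2
      · exact (mem_filter.1 hj).2
    · intro hv
      obtain ⟨j, -, rfl⟩ := mem_image.1 (he.1.1 hv)
      by_cases h4 : j = i
      · left; rw [h4]
      · right
        obtain ⟨j', rfl⟩ := Fin.exists_succAbove_eq h4
        exact ⟨j', mem_filter.2 ⟨mem_univ _, hv⟩, rfl⟩
  · intro A hA
    ext j
    rw [mem_filter, mem_insert, mem_image]
    constructor
    · rintro ⟨-, h | ⟨j', hj', h⟩⟩
      · exact absurd (hf h) (Fin.succAbove_ne i j)
      · have := Fin.succAbove_right_injective (hf h)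
        rw [← this]; exact hj'
    · intro hj
      exact ⟨mem_univ _, Or.inr ⟨j, hj, rfl⟩⟩
  · intro e he
    rw [mem_filter, mem_powersetCard] at he
    congr 1
    ext v
    rw [mem_insert, mem_image]
    constructor
    · intro hv
      obtain ⟨j, -, rfl⟩ := mem_image.1 (he.1.1 hv)
      by_cases h4 : j = i
      · left; rw [h4]
      · right
        obtain ⟨j', rfl⟩ := Fin.exists_succAbove_eq h4
        exact ⟨j', mem_filter.2 ⟨mem_univ _, hv⟩, rfl⟩
    · rintro (rfl | ⟨j, hj, rfl⟩)
      · exact he.2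
      · exact (mem_filter.1 hj).2

/-- weights of parts of typical tuples -/
lemma W_le {w : Finset V → ℝ} (hw0 : ∀ S, 0 ≤ w S) {X : Finset V} {q m : ℕ} {D : ℝ}
    {f : Fin (m + 1) → V} (hf : f ∈ Good w X q m D) {I : Finset V} (hI : I ⊆ univ.image f) :
    ∑ e ∈ powersetCard (q + 1) I, w e ≤ D / (q + 1) * I.card := by
  classical
  obtain ⟨-, hinj, hD⟩ := mem_good.1 hf
  have h1 : ∑ x ∈ I, ∑ e ∈ (powersetCard (q + 1) I).filter (fun e => x ∈ e), w e =
      (q + 1) * ∑ e ∈ powersetCard (q + 1) I, w e := by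
    have h2 : ∀ x ∈ I, ∑ e ∈ (powersetCard (q + 1) I).filter (fun e => x ∈ e), w e =
        ∑ e ∈ powersetCard (q + 1) I, if x ∈ e then w e else 0 := fun x _ => sum_filter _ _
    rw [sum_congr rfl h2, sum_comm, mul_sum]
    refine sum_congr rfl fun e he => ?_
    rw [mem_powersetCard] at he
    rw [← sum_filter, sum_const, filter_mem_eq_inter, inter_eq_right.2 he.1, he.2, nsmul_eq_mul]
    push_cast
    ring
  have h2 : ∑ x ∈ I, ∑ e ∈ (powersetCard (q + 1) I).filter (fun e => x ∈ e), w e ≤
      ∑ x ∈ I, D := by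
    refine sum_le_sum fun x hx => ?_
    obtain ⟨i, -, rfl⟩ := mem_image.1 (hI hx)
    refine le_trans ?_ (hD i)
    rw [← sum_containing w hinj i]
    refine sum_le_sum_of_subset_of_nonneg ?_ fun e _ _ => hw0 e
    exact filter_subset_filter _ (powersetCard_mono hI)
  rw [h1, sum_const, nsmul_eq_mul] at h2
  have h3 : (0:ℝ) < q + 1 := by positivity
  rw [div_mul_eq_mul_div, le_div_iff₀ h3]
  linarith

end Pool.Agent.T2H11.HN
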