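import Pool.Agent.T2H11.HN.Ramsey

set_option autoImplicit false

/-!
# Noise: lower bounds
-/

open Finset Filter Topology

namespace Pool.Agent.T2H11.HN

/-- the random perturbation of the colouring `H`: every colour is changed with probability `δ` -/
noncomputable def noise {α : Type} [DecidableEq α] (δ : ℝ) (H : Finset α) (e : α) : ℝ :=
  if e ∈ H then 1 - δ else δ

lemma noise_cases {α : Type} [DecidableEq α] (δ : ℝ) (H : Finset α) (e : α) :
    noise δ H e = 1 - δ ∨ noise δ H e = δ := by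
  unfold noise
  by_cases h : e ∈ H
  · left; rw [if_pos h]
  · right; rw [if_neg h]

lemma weight_noise {α : Type} [DecidableEq α] (E : Finset α) (δ : ℝ) (G H : Finset α) :
    weight E (noise δ H) G = weight E (noise δ G) H := by
  unfold weight noise
  refine prod_congr rfl fun e _ => ?_
  by_cases h1 : e ∈ G <;> by_cases h2 : e ∈ H <;> simp [h1, h2]

lemma sum_noise {α : Type} [DecidableEq α] (E : Finset α) (δ : ℝ) (Q : Finset α → Prop)
    [DecidablePred Q] :
    ∑ H ∈ E.powerset, prob E (noise δ H) Q = ((E.powerset.filter Q).card : ℝ) := by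
  rw [sum_congr rfl fun H _ => prob_eq E (noise δ H) Q, sum_comm]
  have h1 : ∀ G ∈ E.powerset, ∑ H ∈ E.powerset, (if Q G then weight E (noise δ H) G else 0) =
      if Q G then 1 else 0 := by
    intro G _
    split_ifs with h
    · rw [sum_congr rfl fun H _ => weight_noise E δ G H, sum_weight]
    · simp
  rw [← sum_boole]
  exact sum_congr rfl h1

lemma prob_half {α : Type} [DecidableEq α] (E : Finset α) (Q : Finset α → Prop) [DecidablePred Q] :
    prob E (fun _ => 1 / 2) Q = (1 / 2) ^ E.card * ((E.powerset.filter Q).card : ℝ) := by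
  rw [prob_eq]
  have h1 : ∀ G : Finset α, weight E (fun _ => (1:ℝ) / 2) G = (1 / 2) ^ E.card := by
    intro G
    unfold weight
    rw [← prod_const]
    refine prod_congr rfl fun e _ => ?_
    split_ifs <;> norm_num
  rw [← sum_boole, mul_sum]
  refine sum_congr rfl fun G _ => ?_
  rw [h1]
  by_cases h : Q G
  · rw [if_pos h, if_pos h, mul_one]
  · rw [if_neg h, if_neg h, mul_zero]

/-- some base colouring is at least as good as the uniformly random colouring -/
lemma exists_noise_lt {α : Type} [DecidableEq α] (E : Finset α) (δ : ℝ) (Q : Finset α → Prop)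
    (h : prob E (fun _ => 1 / 2) Q < 1 / 2) : ∃ H : Finset α, prob E (noise δ H) Q < 1 / 2 := by
  classical
  by_contra hcon
  push Not at hcon
  have h1 := sum_noise E δ Q
  have h2 : (∑ _H ∈ E.powerset, (1:ℝ) / 2) ≤ ∑ H ∈ E.powerset, prob E (noise δ H) Q :=
    sum_le_sum fun H _ => hcon H
  rw [h1, sum_const, nsmul_eq_mul] at h2
  have h3 := prob_half E (fun _ => True)
  have h4 : prob E (fun _ => (1:ℝ) / 2) (fun _ : Finset α => True) = 1 := by
    rw [prob_eq]
    refine (sum_congr rfl fun G _ => if_pos trivial).trans ?_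
    exact sum_weight E (fun _ => (1:ℝ) / 2)
  rw [h4, filter_true] at h3
  rw [prob_half] at h
  have h5 : (0:ℝ) < (1 / 2) ^ E.card := by positivity
  have h6 := mul_le_mul_of_nonneg_left h2 h5.le
  nlinarith

/-- first moment bound -/
lemma prob_clique_le {n r k : ℕ} {p : Finset (Fin n) → ℝ} {B : ℝ}
    (hp0 : ∀ e ∈ Ed (Fin n) r, 0 ≤ p e) (hp1 : ∀ e ∈ Ed (Fin n) r, p e ≤ 1)
    (hB : ∀ S : Finset (Fin n), S.card = k → ∏ e ∈ powersetCard r S, p e ≤ B) :
    prob (Ed (Fin n) r) p (HasClique r k) ≤ (n.choose k : ℝ) * B := by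
  classical
  rw [prob_eq]
  have h1 : ∀ H ∈ (Ed (Fin n) r).powerset,
      (if HasClique r k H then weight (Ed (Fin n) r) p H else 0) ≤
      ∑ S ∈ powersetCard k (univ : Finset (Fin n)),
        if powersetCard r S ⊆ H then weight (Ed (Fin n) r) p H else 0 := by
    intro H _
    have hw : 0 ≤ weight (Ed (Fin n) r) p H := weight_nonneg hp0 hp1 H
    have hnn : ∀ S ∈ powersetCard k (univ : Finset (Fin n)), 0 ≤
        (if powersetCard r S ⊆ H then weight (Ed (Fin n) r) p H else 0) := by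
      intro S _
      split_ifs
      · exact hw
      · exact le_rfl
    split_ifs with h
    · obtain ⟨S, hS, hSH⟩ := h
      have hSk : S ∈ powersetCard k (univ : Finset (Fin n)) :=
        mem_powersetCard.2 ⟨subset_univ _, hS⟩
      refine le_trans ?_ (single_le_sum hnn hSk)
      rw [if_pos hSH]
    · exact sum_nonneg hnn
  refine (sum_le_sum h1).trans ?_
  rw [sum_comm]
  have h2 : ∀ S ∈ powersetCard k (univ : Finset (Fin n)), ∑ H ∈ (Ed (Fin n) r).powerset,
      (if powersetCard r S ⊆ H then weight (Ed (Fin n) r) p H else 0) ≤ B := by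
    intro S hS
    rw [prob_subset _ _ (ps_sub r S)]
    exact hB S (mem_powersetCard.1 hS).2
  refine (sum_le_sum h2).trans (le_of_eq ?_)
  rw [sum_const, nsmul_eq_mul, card_powersetCard, card_univ, Fintype.card_fin]

/-- first moment bound for both colours -/
lemma prob_mono_le {n r k : ℕ} {p : Finset (Fin n) → ℝ} {B : ℝ}
    (hp0 : ∀ e ∈ Ed (Fin n) r, 0 ≤ p e) (hp1 : ∀ e ∈ Ed (Fin n) r, p e ≤ 1)
    (hB : ∀ S : Finset (Fin n), S.card = k → ∏ e ∈ powersetCard r S, p e ≤ B)
    (hB' : ∀ S : Finset (Fin n), S.card = k → ∏ e ∈ powersetCard r S, (1 - p e) ≤ B) :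
    prob (Ed (Fin n) r) p (HasMono r k) ≤ 2 * ((n.choose k : ℝ) * B) := by
  classical
  have h1 : prob (Ed (Fin n) r) p (HasMono r k) ≤ prob (Ed (Fin n) r) p
      (fun H => HasClique r k H ∨ HasClique r k (Ed (Fin n) r \ H)) :=
    prob_mono hp0 hp1 fun H _ h => hasMono_iff.1 h
  have h2 := prob_or_le hp0 hp1 (HasClique r k) (fun H => HasClique r k (Ed (Fin n) r \ H))
  have h3 := prob_clique_le hp0 hp1 hB
  have h4 := prob_clique_le (p := fun e => 1 - p e) (fun e he => by linarith [hp1 e he])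
    (fun e he => by linarith [hp0 e he]) hB'
  have h5 := prob_compl (Ed (Fin n) r) p (HasClique r k)
  rw [h5] at h2
  linarith

/-- below `exp ((log 2 / r! - ε) k^(r-1))` vertices the noise does not force monochromatic sets -/
lemma prob_half_small (q : ℕ) {ε : ℝ} (hε : 0 < ε) : ∃ K : ℕ, ∀ k : ℕ, K ≤ k → ∀ n : ℕ,
    (n : ℝ) ≤ Real.exp ((Real.log 2 / (q + 2).factorial - ε) * (k : ℝ) ^ (q + 1)) →
      prob (Ed (Fin n) (q + 2)) (fun _ => 1 / 2) (HasMono (q + 2) k) < 1 / 2 := by
  have hlog2 : 0 < Real.log 2 := Real.log_pos (by norm_num)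
  set F : ℝ := ((q + 2).factorial : ℝ) with hF
  have hF0 : 0 < F := by rw [hF]; exact_mod_cast Nat.factorial_pos _
  have hF1 : 1 ≤ F := by rw [hF]; exact_mod_cast Nat.one_le_iff_ne_zero.2 (Nat.factorial_ne_zero _)
  obtain ⟨K, hK⟩ := exists_nat_gt ((Real.log 4 + ((q : ℝ) + 2) ^ 2 * Real.log 2) / ε)
  refine ⟨max K (q + 3), fun k hk n hn => ?_⟩
  have hkK : K ≤ k := le_trans (le_max_left _ _) hk
  have hkq : q + 3 ≤ k := le_trans (le_max_right _ _) hk
  have hkr : (1:ℝ) ≤ k := by exact_mod_cast (by omega : 1 ≤ k)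
  have hk0 : (0:ℝ) < k := by linarith
  have h1 := prob_mono_le (n := n) (r := q + 2) (k := k) (p := fun _ => (1:ℝ) / 2)
    (B := (1 / 2) ^ (k.choose (q + 2))) (fun _ _ => by norm_num) (fun _ _ => by norm_num)
    (fun S hS => by rw [prod_const, card_powersetCard, hS])
    (fun S hS => by rw [prod_const, card_powersetCard, hS]; norm_num)
  refine lt_of_le_of_lt h1 ?_
  have h2 : (n.choose k : ℝ) ≤ (n : ℝ) ^ k := by exact_mod_cast Nat.choose_le_pow n k
  have h3 : (n : ℝ) ^ k ≤ Real.exp (k * ((Real.log 2 / F - ε) * (k : ℝ) ^ (q + 1))) := by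
    rw [Real.exp_nat_mul]
    exact pow_le_pow_left₀ (Nat.cast_nonneg n) hn k
  have h4 : ((1:ℝ) / 2) ^ (k.choose (q + 2)) = Real.exp (-(k.choose (q + 2) * Real.log 2)) := by
    have e : Real.exp (-(k.choose (q + 2) * Real.log 2)) =
        Real.exp ((k.choose (q + 2) : ℕ) * (-Real.log 2)) := by congr 1; ring
    rw [e, Real.exp_nat_mul, Real.exp_neg, Real.exp_log (by norm_num), one_div]
  -- lower bound for the binomial coefficient
  have h5 : (k : ℝ) ^ (q + 2) - ((q : ℝ) + 2) ^ 2 * (k : ℝ) ^ (q + 1) ≤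
      F * k.choose (q + 2) := by
    have e1 : ((k - (q + 2) : ℕ) : ℝ) ^ (q + 2) ≤ F * k.choose (q + 2) := by
      have e2 := Nat.pow_sub_le_descFactorial k (q + 2)
      have e3 : (k - (q + 2)) ^ (q + 2) ≤ (k + 1 - (q + 2)) ^ (q + 2) :=
        Nat.pow_le_pow_left (by omega) _
      have e4 := Nat.descFactorial_eq_factorial_mul_choose k (q + 2)
      rw [hF]
      have e5 : (k - (q + 2)) ^ (q + 2) ≤ (q + 2).factorial * k.choose (q + 2) := by
        rw [← e4]; exact e3.trans e2
      exact_mod_cast e5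
    refine le_trans ?_ e1
    have e6 : ((k - (q + 2) : ℕ) : ℝ) = k - ((q : ℝ) + 2) := by
      rw [Nat.cast_sub (by omega)]; push_cast; ring
    rw [e6]
    have e7 := one_add_mul_le_pow (a := -(((q : ℝ) + 2) / k)) (by
      have : ((q : ℝ) + 2) / k ≤ 1 := by
        rw [div_le_one hk0]
        have : ((q + 3 : ℕ) : ℝ) ≤ k := by exact_mod_cast hkq
        push_cast at this
        linarith
      linarith) (q + 2)
    have e8 : (k - ((q : ℝ) + 2)) ^ (q + 2) = (k : ℝ) ^ (q + 2) *
        (1 + -(((q : ℝ) + 2) / k)) ^ (q + 2) := by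
      rw [← mul_pow]
      congr 1
      field_simp
      ring
    rw [e8]
    have e9 := mul_le_mul_of_nonneg_left e7 (by positivity : (0:ℝ) ≤ (k : ℝ) ^ (q + 2))
    refine le_trans (le_of_eq ?_) e9
    have e10 : (k : ℝ) ^ (q + 2) = (k : ℝ) ^ (q + 1) * k := pow_succ _ _
    rw [e10]
    push_cast
    field_simp
    ring
  have hKε : Real.log 4 + ((q : ℝ) + 2) ^ 2 * Real.log 2 < ε * k := by
    have : (Real.log 4 + ((q : ℝ) + 2) ^ 2 * Real.log 2) / ε < k :=
      hK.trans_le (by exact_mod_cast hkK)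
    rw [div_lt_iff₀ hε] at this
    linarith
  have hkp1 : (1:ℝ) ≤ (k : ℝ) ^ (q + 1) := one_le_pow₀ hkr
  have h6 : k * ((Real.log 2 / F - ε) * (k : ℝ) ^ (q + 1)) + -(k.choose (q + 2) * Real.log 2) <
      -Real.log 4 := by
    have e1 : (k.choose (q + 2) : ℝ) ≥ ((k : ℝ) ^ (q + 2) - ((q : ℝ) + 2) ^ 2 *
        (k : ℝ) ^ (q + 1)) / F := by
      rw [ge_iff_le, div_le_iff₀ hF0]; linarith
    have e2 : k * ((Real.log 2 / F - ε) * (k : ℝ) ^ (q + 1)) =
        Real.log 2 / F * (k : ℝ) ^ (q + 2) - ε * k * (k : ℝ) ^ (q + 1) := by ring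
    have e3 : ((k : ℝ) ^ (q + 2) - ((q : ℝ) + 2) ^ 2 * (k : ℝ) ^ (q + 1)) / F * Real.log 2 =
        Real.log 2 / F * (k : ℝ) ^ (q + 2) -
          ((q : ℝ) + 2) ^ 2 * Real.log 2 / F * (k : ℝ) ^ (q + 1) := by ring
    have e4 := mul_le_mul_of_nonneg_right e1 hlog2.le
    rw [e3] at e4
    have e5 : ((q : ℝ) + 2) ^ 2 * Real.log 2 / F ≤ ((q : ℝ) + 2) ^ 2 * Real.log 2 :=
      div_le_self (by positivity) hF1
    have e6 := mul_le_mul_of_nonneg_right e5 (by linarith : (0:ℝ) ≤ (k : ℝ) ^ (q + 1))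
    have e7 : 0 ≤ Real.log 4 := Real.log_nonneg (by norm_num)
    have e8 : (Real.log 4 + ((q : ℝ) + 2) ^ 2 * Real.log 2) * (k : ℝ) ^ (q + 1) <
        ε * k * (k : ℝ) ^ (q + 1) := mul_lt_mul_of_pos_right hKε (by linarith)
    have e9 : Real.log 4 ≤ Real.log 4 * (k : ℝ) ^ (q + 1) := le_mul_of_one_le_right e7 hkp1
    rw [e2]
    nlinarith
  have h7 : (n.choose k : ℝ) * (1 / 2) ^ (k.choose (q + 2)) < 1 / 4 := by
    calc (n.choose k : ℝ) * (1 / 2) ^ (k.choose (q + 2))
        ≤ Real.exp (k * ((Real.log 2 / F - ε) * (k : ℝ) ^ (q + 1))) *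
          Real.exp (-(k.choose (q + 2) * Real.log 2)) := by
          rw [h4]
          exact mul_le_mul_of_nonneg_right (h2.trans h3) (Real.exp_pos _).le
      _ = Real.exp (k * ((Real.log 2 / F - ε) * (k : ℝ) ^ (q + 1)) +
          -(k.choose (q + 2) * Real.log 2)) := (Real.exp_add _ _).symm
      _ < Real.exp (-Real.log 4) := Real.exp_lt_exp.2 h6
      _ = 1 / 4 := by rw [Real.exp_neg, Real.exp_log (by norm_num), one_div]
  linarith

/-- `C(n,r) / C(m,r) ≥ (n / m)^r` -/
lemma choose_ratio {n m : ℕ} (hmn : m ≤ n) (r : ℕ) :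
    (n : ℝ) ^ r * m.choose r ≤ (m : ℝ) ^ r * n.choose r := by
  have h1 : ∀ r : ℕ, n ^ r * m.descFactorial r ≤ m ^ r * n.descFactorial r := by
    intro r
    induction r with
    | zero => simp
    | succ r ih =>
      rw [Nat.descFactorial_succ, Nat.descFactorial_succ, pow_succ, pow_succ]
      have h2 : n * (m - r) ≤ m * (n - r) := by
        rw [Nat.mul_sub, Nat.mul_sub, mul_comm m n]
        exact Nat.sub_le_sub_left (Nat.mul_le_mul_right r hmn) _
      calc n ^ r * n * ((m - r) * m.descFactorial r) = (n ^ r * m.descFactorial r) * (n * (m - r)) := by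
            ring
        _ ≤ (m ^ r * n.descFactorial r) * (m * (n - r)) := Nat.mul_le_mul ih h2
        _ = m ^ r * m * ((n - r) * n.descFactorial r) := by ring
  have h2 := h1 r
  rw [Nat.descFactorial_eq_factorial_mul_choose, Nat.descFactorial_eq_factorial_mul_choose] at h2
  have h3 : (n : ℝ) ^ r * ((r.factorial : ℝ) * m.choose r) ≤
      (m : ℝ) ^ r * ((r.factorial : ℝ) * n.choose r) := by exact_mod_cast h2
  have h4 : (0:ℝ) < r.factorial := by exact_mod_cast Nat.factorial_pos r
  have h5 : (r.factorial : ℝ) * ((n : ℝ) ^ r * m.choose r) ≤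
      (r.factorial : ℝ) * ((m : ℝ) ^ r * n.choose r) := by linarith
  exact le_of_mul_le_mul_left h5 h4

/-- supersaturation: if every `m`-subset of the `k`-set `S` contains an `r`-set from `H`, then `S`
contains at least `(k / m) ^ r` such sets -/
lemma supersat {V : Type} [DecidableEq V] {r m k : ℕ} (hrm : r ≤ m) (hmk : m ≤ k)
    {S : Finset V} (hS : S.card = k) {H : Finset (Finset V)}
    (h : ∀ T ⊆ S, T.card = m → ∃ e ∈ powersetCard r T, e ∈ H) :
    ((k : ℝ) / m) ^ r ≤ (((powersetCard r S).filter (fun e => e ∈ H)).card : ℝ) := by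
  classical
  rcases Nat.eq_zero_or_pos m with hm | hm
  · subst hm
    have hr : r = 0 := by omega
    subst hr
    rw [pow_zero]
    obtain ⟨e, he, heH⟩ := h ∅ (empty_subset _) rfl
    have : 0 < ((powersetCard 0 S).filter (fun e => e ∈ H)).card := by
      rw [card_pos]
      refine ⟨e, mem_filter.2 ⟨?_, heH⟩⟩
      rw [mem_powersetCard] at he ⊢
      exact ⟨he.1.trans (empty_subset _), he.2⟩
    exact_mod_cast this
  set B := (powersetCard r S).filter (fun e => e ∈ H) with hB
  have h1 : powersetCard m S ⊆ B.biUnion (fun e => (powersetCard m S).filter (fun T => e ⊆ T)) := by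
    intro T hT
    have hT2 := mem_powersetCard.1 hT
    obtain ⟨e, he, heH⟩ := h T hT2.1 hT2.2
    rw [mem_powersetCard] at he
    rw [mem_biUnion]
    refine ⟨e, mem_filter.2 ⟨mem_powersetCard.2 ⟨he.1.trans hT2.1, he.2⟩, heH⟩,
      mem_filter.2 ⟨hT, he.1⟩⟩
  have h2 : ∀ e ∈ B, ((powersetCard m S).filter (fun T => e ⊆ T)).card ≤
      (k - r).choose (m - r) := by
    intro e he
    rw [hB, mem_filter, mem_powersetCard] at he
    have h3 : (powersetCard (m - r) (S \ e)).card = (k - r).choose (m - r) := by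
      rw [card_powersetCard, card_sdiff_of_subset he.1.1, hS, he.1.2]
    rw [← h3]
    refine card_le_card_of_injOn (fun T => T \ e) ?_ ?_
    · intro T hT
      rw [mem_coe, mem_filter, mem_powersetCard] at hT
      rw [mem_coe, mem_powersetCard]
      refine ⟨sdiff_subset_sdiff hT.1.1 (Subset.refl e), ?_⟩
      rw [card_sdiff_of_subset hT.2, hT.1.2, he.1.2]
    · intro T hT T' hT' hTT
      rw [mem_coe, mem_filter] at hT hT'
      have h4 : T \ e = T' \ e := hTT
      rw [← sdiff_union_of_subset hT.2, ← sdiff_union_of_subset hT'.2, h4]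
  have h3 : k.choose m ≤ B.card * (k - r).choose (m - r) := by
    have h4 := card_le_card h1
    rw [card_powersetCard, hS] at h4
    refine h4.trans (card_biUnion_le.trans ?_)
    refine (sum_le_sum h2).trans ?_
    rw [sum_const, smul_eq_mul]
  have h4 : k.choose m * m.choose r = k.choose r * (k - r).choose (m - r) :=
    Nat.choose_mul hrm
  have h5 : k.choose m * k.choose r ≤ B.card * (k.choose m * m.choose r) := by
    calc k.choose m * k.choose r ≤ (B.card * (k - r).choose (m - r)) * k.choose r :=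
          Nat.mul_le_mul_right _ h3
      _ = B.card * (k.choose r * (k - r).choose (m - r)) := by ring
      _ = B.card * (k.choose m * m.choose r) := by rw [h4]
  have hkm : 0 < k.choose m := Nat.choose_pos hmk
  have h6 : k.choose r ≤ B.card * m.choose r := by
    have : k.choose m * k.choose r ≤ k.choose m * (B.card * m.choose r) := by
      refine h5.trans (le_of_eq ?_)
      ring
    exact Nat.le_of_mul_le_mul_left this hkm
  have h7 := choose_ratio hmk r
  have h8 : (k.choose r : ℝ) ≤ B.card * m.choose r := by exact_mod_cast h6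
  have h9 : (0:ℝ) < m.choose r := by exact_mod_cast Nat.choose_pos hrm
  have hmr : (0:ℝ) < (m : ℝ) ^ r := by positivity
  rw [div_pow, div_le_iff₀ hmr]
  have h10 : (k : ℝ) ^ r * m.choose r ≤ (B.card * (m : ℝ) ^ r) * m.choose r := by
    calc (k : ℝ) ^ r * m.choose r ≤ (m : ℝ) ^ r * k.choose r := h7
      _ ≤ (m : ℝ) ^ r * (B.card * m.choose r) := mul_le_mul_of_nonneg_left h8 hmr.le
      _ = _ := by ring
  exact le_of_mul_le_mul_right h10 h9

/-- colourings without monochromatic `m`-sets survive noise -/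
lemma prob_noise_small {n r m k : ℕ} (hrm : r ≤ m) (hmk : m ≤ k) {δ : ℝ} (hδ : 0 < δ)
    (hδ1 : δ ≤ 1 / 2) {H : Finset (Finset (Fin n))} (hH : ¬ HasMono r m H)
    (h4 : 4 * ((n : ℝ) ^ k * δ ^ (((k : ℝ) / m) ^ r)) < 1) :
    prob (Ed (Fin n) r) (noise δ H) (HasMono r k) < 1 / 2 := by
  classical
  have hn0 : ∀ e ∈ Ed (Fin n) r, 0 ≤ noise δ H e := fun e _ => by
    rcases noise_cases δ H e with h | h <;> rw [h] <;> linarith
  have hn1 : ∀ e ∈ Ed (Fin n) r, noise δ H e ≤ 1 := fun e _ => by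
    rcases noise_cases δ H e with h | h <;> rw [h] <;> linarith
  have key : ∀ (H' : Finset (Finset (Fin n))) (S : Finset (Fin n)), S.card = k →
      (∀ T ⊆ S, T.card = m → ∃ e ∈ powersetCard r T, e ∈ H') →
      ∀ g : Finset (Fin n) → ℝ, (∀ e, e ∈ H' → g e = δ) → (∀ e, 0 ≤ g e ∧ g e ≤ 1) →
      ∏ e ∈ powersetCard r S, g e ≤ δ ^ (((k : ℝ) / m) ^ r) := by
    intro H' S hS hT g hg hg1
    have h1 := supersat hrm hmk hS hT
    have h2 : ∏ e ∈ powersetCard r S, g e ≤ ∏ e ∈ powersetCard r S, if e ∈ H' then δ else 1 := by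
      refine prod_le_prod (fun e _ => (hg1 e).1) fun e _ => ?_
      split_ifs with h
      · rw [hg e h]
      · exact (hg1 e).2
    refine h2.trans ?_
    rw [prod_ite, prod_const_one, mul_one, prod_const, ← Real.rpow_natCast]
    exact Real.rpow_le_rpow_of_exponent_ge hδ (by linarith) h1
  have hno : ∀ T : Finset (Fin n), T.card = m →
      (∃ e ∈ powersetCard r T, e ∉ H) ∧ ∃ e ∈ powersetCard r T, e ∈ H := by
    intro T hT
    constructor
    · by_contra hcon
      push Not at hcon
      exact hH ⟨T, hT, Or.inl hcon⟩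
    · by_contra hcon
      push Not at hcon
      exact hH ⟨T, hT, Or.inr hcon⟩
  have h1 := prob_mono_le (k := k) hn0 hn1 (B := δ ^ (((k : ℝ) / m) ^ r))
    (fun S hS => by
      refine key Hᶜ S hS (fun T _ hT => ?_) (noise δ H) (fun e he => ?_) (fun e => ?_)
      · obtain ⟨e, he, heH⟩ := (hno T hT).1
        exact ⟨e, he, mem_compl.2 heH⟩
      · unfold noise
        rw [if_neg (mem_compl.1 he)]
      · rcases noise_cases δ H e with h | h <;> rw [h] <;> constructor <;> linarith)
    (fun S hS => by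
      refine key H S hS (fun T _ hT => (hno T hT).2) (fun e => 1 - noise δ H e)
        (fun e he => ?_) (fun e => ?_)
      · unfold noise
        rw [if_pos he]
        ring
      · rcases noise_cases δ H e with h | h <;> simp only [h] <;> constructor <;> linarith)
  refine lt_of_le_of_lt h1 ?_
  have h2 : (n.choose k : ℝ) ≤ (n : ℝ) ^ k := by exact_mod_cast Nat.choose_le_pow n k
  have h3 : 0 ≤ δ ^ (((k : ℝ) / m) ^ r) := Real.rpow_nonneg hδ.le _
  have h5 := mul_le_mul_of_nonneg_right h2 h3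
  linarith

end Pool.Agent.T2H11.HN
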