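import Pool.Agent.T2H11.HN.Prob
import Pool.Agent.T2H11.HN.Good

set_option autoImplicit false

/-!
# The second moment computation
-/

open Finset

namespace Pool.Agent.T2H11.HN

open Pool.Agent.T2H11.SM (Tup mem_tup card_tup second_moment)

variable {V : Type} [Fintype V] [DecidableEq V]

/-- the weight `-log p` of the `r`-sets, `0` for the other sets -/
noncomputable def lw (r : ℕ) (p : Finset V → ℝ) (S : Finset V) : ℝ :=
  if S.card = r then -Real.log (p S) else 0

/-- all `r`-sets -/
def Ed (V : Type) [Fintype V] (r : ℕ) : Finset (Finset V) := powersetCard r univ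

omit [DecidableEq V] in
lemma mem_ed {r : ℕ} {e : Finset V} : e ∈ Ed V r ↔ e.card = r := by
  unfold Ed
  rw [mem_powersetCard]
  exact ⟨fun h => h.2, fun h => ⟨subset_univ _, h⟩⟩

omit [DecidableEq V] in
lemma ps_sub (r : ℕ) (S : Finset V) : powersetCard r S ⊆ Ed V r := powersetCard_mono (subset_univ S)

omit [Fintype V] in
lemma ps_inter (r : ℕ) (S T : Finset V) :
    powersetCard r S ∩ powersetCard r T = powersetCard r (S ∩ T) := by
  ext e
  rw [mem_inter, mem_powersetCard, mem_powersetCard, mem_powersetCard, subset_inter_iff]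
  tauto

/-- sum over the second tuple -/
lemma sum_second {w : Finset V → ℝ} (hw0 : ∀ S, 0 ≤ w S) {X : Finset V} (hX : X.Nonempty)
    {q m : ℕ} {D : ℝ} {f : Fin (m + 1) → V} (hf : f ∈ Good w X q m D) :
    ∑ g ∈ Good w X q m D,
      Real.exp (∑ e ∈ powersetCard (q + 1) (univ.image f ∩ univ.image g), w e) ≤
      (X.card : ℝ) ^ (m + 1) * Real.exp ((m + 1) ^ 2 * Real.exp (D / (q + 1)) / X.card) := by
  set s : ℝ := (X.card : ℝ) with hs
  have hs0 : 0 < s := by rw [hs]; exact_mod_cast hX.card_pos
  set S := univ.image f with hS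
  set B := Real.exp (D / (q + 1)) with hB
  obtain ⟨hfX, hinj, -⟩ := mem_good.1 hf
  have hSX : S ⊆ X := by
    intro x hx
    obtain ⟨i, -, rfl⟩ := mem_image.1 hx
    exact hfX i
  have hSc : S.card = m + 1 := by
    rw [hS, card_image_of_injective _ hinj, card_univ, Fintype.card_fin]
  have h1 : ∀ g ∈ Good w X q m D,
      Real.exp (∑ e ∈ powersetCard (q + 1) (S ∩ univ.image g), w e) ≤
      ∏ j, (if g j ∈ S then B else 1) := by
    intro g hg
    obtain ⟨-, hginj, -⟩ := mem_good.1 hg
    have h2 := W_le hw0 hf (I := S ∩ univ.image g) inter_subset_left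
    have h3 : S ∩ univ.image g = (univ.filter (fun j => g j ∈ S)).image g := by
      ext x
      constructor
      · intro hx
        obtain ⟨hx1, hx2⟩ := mem_inter.1 hx
        obtain ⟨j, -, rfl⟩ := mem_image.1 hx2
        exact mem_image.2 ⟨j, mem_filter.2 ⟨mem_univ _, hx1⟩, rfl⟩
      · intro hx
        obtain ⟨j, hj, rfl⟩ := mem_image.1 hx
        exact mem_inter.2 ⟨(mem_filter.1 hj).2, mem_image.2 ⟨j, mem_univ _, rfl⟩⟩
    rw [prod_ite, prod_const_one, mul_one, prod_const, hB, ← Real.exp_nat_mul]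
    apply Real.exp_le_exp.2
    refine h2.trans (le_of_eq ?_)
    rw [h3, card_image_of_injective _ hginj]
    ring
  have h2 : ∀ g ∈ Tup X (m + 1), (0:ℝ) ≤ ∏ j, (if g j ∈ S then B else 1) := by
    intro g _
    exact prod_nonneg fun j _ => by split_ifs <;> positivity
  have h3 : Good w X q m D ⊆ Tup X (m + 1) := by
    unfold Good
    exact filter_subset _ _
  refine (sum_le_sum h1).trans ((sum_le_sum_of_subset_of_nonneg h3 fun g hg _ => h2 g hg).trans ?_)
  unfold Tup
  rw [sum_prod_piFinset X (fun _ x => if x ∈ S then B else 1), prod_const, card_univ,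
    Fintype.card_fin]
  have h4 : ∑ x ∈ X, (if x ∈ S then B else 1) ≤ s * (1 + (m + 1) * B / s) := by
    have h5 : ∀ x ∈ X, (if x ∈ S then B else 1) ≤ 1 + if x ∈ S then B else 0 := by
      intro x _
      split_ifs
      · linarith
      · linarith
    refine (sum_le_sum h5).trans ?_
    rw [sum_add_distrib, sum_const, nsmul_eq_mul, mul_one, ← hs, ← sum_filter, sum_const,
      nsmul_eq_mul]
    have h6 : X.filter (fun x => x ∈ S) = S := by
      ext x
      rw [mem_filter]
      exact ⟨fun h => h.2, fun h => ⟨hSX h, h⟩⟩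
    rw [h6, hSc]
    apply le_of_eq
    push_cast
    field_simp
  have h5 : (0:ℝ) ≤ ∑ x ∈ X, (if x ∈ S then B else 1) :=
    sum_nonneg fun x _ => by split_ifs <;> positivity
  refine (pow_le_pow_left₀ h5 h4 (m + 1)).trans ?_
  rw [mul_pow]
  refine mul_le_mul_of_nonneg_left ?_ (by positivity)
  have h6 : 1 + (m + 1) * B / s ≤ Real.exp ((m + 1) * B / s) := by
    have := Real.add_one_le_exp ((m + 1) * B / s)
    linarith
  have h7 : (0:ℝ) ≤ 1 + (m + 1) * B / s := by positivity
  refine (pow_le_pow_left₀ h7 h6 (m + 1)).trans ?_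
  rw [← Real.exp_nat_mul]
  apply Real.exp_le_exp.2
  apply le_of_eq
  push_cast
  ring

/-- `H` contains all `r`-subsets of some `k`-set -/
def HasClique (r k : ℕ) (H : Finset (Finset V)) : Prop :=
  ∃ S : Finset V, S.card = k ∧ powersetCard r S ⊆ H

/-- **Second moment bound.** -/
theorem prob_clique {q m : ℕ} {p : Finset V → ℝ} (hp0 : ∀ e ∈ Ed V (q + 1), 0 < p e)
    (hp1 : ∀ e ∈ Ed V (q + 1), p e ≤ 1) {X : Finset V} (hX : X.Nonempty) {D : ℝ}
    (hg : 0 < (Good (lw (q + 1) p) X q m D).card) :
    ((Good (lw (q + 1) p) X q m D).card : ℝ) / (X.card : ℝ) ^ (m + 1) *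
      Real.exp (-((m + 1) ^ 2 * Real.exp (D / (q + 1)) / X.card)) ≤
        prob (Ed V (q + 1)) p (HasClique (q + 1) (m + 1)) := by
  classical
  set w := lw (q + 1) p with hw
  set E := Ed V (q + 1) with hE
  set 𝒢 := Good w X q m D with h𝒢
  have hw0 : ∀ S, 0 ≤ w S := by
    intro S
    rw [hw]
    unfold lw
    split_ifs with h
    · have hS : S ∈ E := mem_ed.2 h
      exact neg_nonneg.2 (Real.log_nonpos (hp0 _ hS).le (hp1 _ hS))
    · exact le_rfl
  let W : (Fin (m + 1) → V) → ℝ := fun f => ∑ e ∈ powersetCard (q + 1) (univ.image f), w e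
  have hprod : ∀ S : Finset V, ∏ e ∈ powersetCard (q + 1) S, p e =
      Real.exp (-∑ e ∈ powersetCard (q + 1) S, w e) := by
    intro S
    rw [← sum_neg_distrib, Real.exp_sum]
    refine prod_congr rfl fun e he => ?_
    rw [hw]
    unfold lw
    rw [if_pos (mem_powersetCard.1 he).2, neg_neg, Real.exp_log (hp0 e (ps_sub _ _ he))]
  let Z : Finset (Finset V) → ℝ := fun H => ∑ f ∈ 𝒢, Real.exp (W f) *
    (if powersetCard (q + 1) (univ.image f) ⊆ H then 1 else 0)
  have hwt : ∀ H ∈ E.powerset, 0 ≤ weight E p H := fun H _ =>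
    weight_nonneg (fun e he => (hp0 e he).le) hp1 H
  have hsm := second_moment E.powerset (weight E p) Z hwt
  have h1 : ∑ H ∈ E.powerset, weight E p H * Z H = 𝒢.card := by
    have e1 : ∀ H ∈ E.powerset, weight E p H * Z H = ∑ f ∈ 𝒢, Real.exp (W f) *
        (if powersetCard (q + 1) (univ.image f) ⊆ H then weight E p H else 0) := by
      intro H _
      rw [mul_sum]
      refine sum_congr rfl fun f _ => ?_
      split_ifs
      · ring
      · ring
    rw [sum_congr rfl e1, sum_comm]
    have e2 : ∀ f ∈ 𝒢, ∑ H ∈ E.powerset, Real.exp (W f) *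
        (if powersetCard (q + 1) (univ.image f) ⊆ H then weight E p H else 0) = 1 := by
      intro f _
      rw [← mul_sum, prob_subset E p (ps_sub _ _), hprod, ← Real.exp_add, add_neg_cancel,
        Real.exp_zero]
    rw [sum_congr rfl e2, sum_const, nsmul_eq_mul, mul_one]
  have h2 : ∑ H ∈ E.powerset, weight E p H * Z H ^ 2 ≤ 𝒢.card * ((X.card : ℝ) ^ (m + 1) *
      Real.exp ((m + 1) ^ 2 * Real.exp (D / (q + 1)) / X.card)) := by
    have e1 : ∀ H ∈ E.powerset, weight E p H * Z H ^ 2 = ∑ f ∈ 𝒢, ∑ g ∈ 𝒢,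
        Real.exp (W f + W g) *
        (if powersetCard (q + 1) (univ.image f) ∪ powersetCard (q + 1) (univ.image g) ⊆ H then
          weight E p H else 0) := by
      intro H _
      rw [sq, sum_mul_sum, mul_sum]
      refine sum_congr rfl fun f _ => ?_
      rw [mul_sum]
      refine sum_congr rfl fun g _ => ?_
      rw [Real.exp_add]
      by_cases ha : powersetCard (q + 1) (univ.image f) ⊆ H
      · by_cases hb : powersetCard (q + 1) (univ.image g) ⊆ H
        · rw [if_pos ha, if_pos hb, if_pos (union_subset ha hb)]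
          ring
        · rw [if_neg hb, if_neg (fun h => hb (subset_union_right.trans h))]
          ring
      · rw [if_neg ha, if_neg (fun h => ha (subset_union_left.trans h))]
        ring
    rw [sum_congr rfl e1, sum_comm]
    have e2 : ∀ f ∈ 𝒢, ∑ H ∈ E.powerset, ∑ g ∈ 𝒢, Real.exp (W f + W g) *
        (if powersetCard (q + 1) (univ.image f) ∪ powersetCard (q + 1) (univ.image g) ⊆ H then
          weight E p H else 0) ≤ (X.card : ℝ) ^ (m + 1) *
          Real.exp ((m + 1) ^ 2 * Real.exp (D / (q + 1)) / X.card) := by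
      intro f hf
      rw [sum_comm]
      refine le_trans (le_of_eq ?_) (sum_second hw0 hX hf)
      refine sum_congr rfl fun g _ => ?_
      rw [← mul_sum, prob_subset E p (union_subset (ps_sub _ _) (ps_sub _ _))]
      have e3 := prod_union_inter (s₁ := powersetCard (q + 1) (univ.image f))
        (s₂ := powersetCard (q + 1) (univ.image g)) (f := p)
      rw [ps_inter, hprod, hprod, hprod] at e3
      have e4 : ∏ e ∈ powersetCard (q + 1) (univ.image f) ∪ powersetCard (q + 1) (univ.image g),
          p e = Real.exp (-W f) * Real.exp (-W g) *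
            Real.exp (∑ e ∈ powersetCard (q + 1) (univ.image f ∩ univ.image g), w e) := by
        have e5 : Real.exp (-∑ e ∈ powersetCard (q + 1) (univ.image f ∩ univ.image g), w e) *
            Real.exp (∑ e ∈ powersetCard (q + 1) (univ.image f ∩ univ.image g), w e) = 1 := by
          rw [← Real.exp_add, neg_add_cancel, Real.exp_zero]
        calc ∏ e ∈ powersetCard (q + 1) (univ.image f) ∪ powersetCard (q + 1) (univ.image g), p e
            = (∏ e ∈ powersetCard (q + 1) (univ.image f) ∪ powersetCard (q + 1) (univ.image g),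
                p e) *
              (Real.exp (-∑ e ∈ powersetCard (q + 1) (univ.image f ∩ univ.image g), w e) *
              Real.exp (∑ e ∈ powersetCard (q + 1) (univ.image f ∩ univ.image g), w e)) := by
              rw [e5, mul_one]
          _ = _ := by rw [← mul_assoc, e3]
      rw [e4, ← Real.exp_add, ← Real.exp_add, ← Real.exp_add]
      congr 1
      ring
    refine (sum_le_sum e2).trans ?_
    rw [sum_const, nsmul_eq_mul]
  have h3 : (∑ H ∈ E.powerset, if Z H ≠ 0 then weight E p H else 0) ≤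
      prob E p (HasClique (q + 1) (m + 1)) := by
    unfold prob
    refine sum_le_sum fun H hH => ?_
    by_cases hz : Z H ≠ 0
    · rw [if_pos hz]
      obtain ⟨f, hf, hne⟩ := exists_ne_zero_of_sum_ne_zero hz
      have hsub : powersetCard (q + 1) (univ.image f) ⊆ H := by
        by_contra hcon
        rw [if_neg hcon, mul_zero] at hne
        exact hne rfl
      rw [if_pos]
      refine ⟨univ.image f, ?_, hsub⟩
      rw [card_image_of_injective _ (mem_good.1 hf).2.1, card_univ, Fintype.card_fin]
    · rw [if_neg hz]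
      split_ifs
      · exact hwt H hH
      · exact le_rfl
  rw [h1] at hsm
  set R := ∑ H ∈ E.powerset, if Z H ≠ 0 then weight E p H else 0 with hR
  set Pr := prob E p (HasClique (q + 1) (m + 1)) with hPr
  have hR0 : 0 ≤ R := sum_nonneg fun H hH => by
    split_ifs
    · exact hwt H hH
    · exact le_rfl
  have hg0 : (0:ℝ) < 𝒢.card := by exact_mod_cast hg
  have hs0 : (0:ℝ) < X.card := by exact_mod_cast hX.card_pos
  have h4 : (𝒢.card : ℝ) ^ 2 ≤ 𝒢.card * ((X.card : ℝ) ^ (m + 1) *
      Real.exp ((m + 1) ^ 2 * Real.exp (D / (q + 1)) / X.card)) * Pr :=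
    hsm.trans (mul_le_mul h2 h3 hR0 (by positivity))
  have h5 : (𝒢.card : ℝ) ≤ (X.card : ℝ) ^ (m + 1) *
      Real.exp ((m + 1) ^ 2 * Real.exp (D / (q + 1)) / X.card) * Pr := by
    have : (𝒢.card : ℝ) * 𝒢.card ≤ 𝒢.card * ((X.card : ℝ) ^ (m + 1) *
      Real.exp ((m + 1) ^ 2 * Real.exp (D / (q + 1)) / X.card) * Pr) := by
      rw [← sq]; linarith
    exact le_of_mul_le_mul_left this hg0
  rw [Real.exp_neg, ← div_eq_mul_inv, div_div, div_le_iff₀ (by positivity)]
  linarith

end Pool.Agent.T2H11.HN
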