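import Pool.Agent.T2H11.SM.Prob

set_option autoImplicit false

/-!
# Random subsets of a finite set with independent elements
-/

open Finset

namespace Pool.Agent.T2H11.HN

variable {α : Type} [DecidableEq α]

/-- probability of the subset `H` of `E` when `e` belongs to it with probability `p e`,
independently -/
def weight (E : Finset α) (p : α → ℝ) (H : Finset α) : ℝ :=
  ∏ e ∈ E, if e ∈ H then p e else 1 - p e

open Classical in
/-- probability of the property `Q` -/
noncomputable def prob (E : Finset α) (p : α → ℝ) (Q : Finset α → Prop) : ℝ :=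
  ∑ H ∈ E.powerset, if Q H then weight E p H else 0

lemma weight_split (E : Finset α) (p : α → ℝ) {A : Finset α} (hA : A ⊆ E) :
    weight E p A = (∏ e ∈ A, p e) * ∏ e ∈ E \ A, (1 - p e) := by
  unfold weight
  rw [← union_sdiff_of_subset hA, prod_union disjoint_sdiff]
  congr 1
  · exact prod_congr rfl fun e he => by rw [if_pos he]
  · rw [union_sdiff_of_subset hA]
    exact prod_congr rfl fun e he => by rw [if_neg (mem_sdiff.1 he).2]

/-- the probability that all elements of `F` are present -/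
theorem prob_subset (E : Finset α) (p : α → ℝ) {F : Finset α} (hF : F ⊆ E) :
    ∑ H ∈ E.powerset, (if F ⊆ H then weight E p H else 0) = ∏ e ∈ F, p e := by
  have h1 : ∏ e ∈ E, (p e + if e ∈ F then 0 else 1 - p e) = ∏ e ∈ F, p e := by
    rw [← union_sdiff_of_subset hF, prod_union disjoint_sdiff]
    have h2 : ∏ e ∈ E \ F, (p e + if e ∈ F then 0 else 1 - p e) = 1 :=
      prod_eq_one fun e he => by rw [if_neg (mem_sdiff.1 he).2]; ring
    rw [h2, mul_one]
    exact prod_congr rfl fun e he => by rw [if_pos he, add_zero]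
  rw [← h1, prod_add]
  refine sum_congr rfl fun A hA => ?_
  rw [mem_powerset] at hA
  rw [weight_split E p hA]
  split_ifs with h
  · congr 1
    refine prod_congr rfl fun e he => ?_
    rw [if_neg]
    intro heF
    exact (mem_sdiff.1 he).2 (h heF)
  · obtain ⟨e, heF, heA⟩ := not_subset.1 h
    have h3 : ∏ e ∈ E \ A, (if e ∈ F then (0:ℝ) else 1 - p e) = 0 :=
      prod_eq_zero (mem_sdiff.2 ⟨hF heF, heA⟩) (by rw [if_pos heF])
    rw [h3, mul_zero]

lemma weight_nonneg {E : Finset α} {p : α → ℝ} (hp0 : ∀ e ∈ E, 0 ≤ p e)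
    (hp1 : ∀ e ∈ E, p e ≤ 1) (H : Finset α) : 0 ≤ weight E p H := by
  unfold weight
  refine prod_nonneg fun e he => ?_
  have h0 := hp0 e he
  have h1 := hp1 e he
  split_ifs <;> linarith

/-- the total mass is one -/
lemma sum_weight (E : Finset α) (p : α → ℝ) : ∑ H ∈ E.powerset, weight E p H = 1 := by
  have h := prob_subset E p (F := ∅) (empty_subset _)
  rw [prod_empty] at h
  rw [← h]
  refine sum_congr rfl fun H _ => ?_
  rw [if_pos (empty_subset _)]

lemma prob_eq (E : Finset α) (p : α → ℝ) (Q : Finset α → Prop) [DecidablePred Q] :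
    prob E p Q = ∑ H ∈ E.powerset, if Q H then weight E p H else 0 := by
  unfold prob
  refine sum_congr rfl fun H _ => ?_
  by_cases h : Q H
  · rw [if_pos h, if_pos h]
  · rw [if_neg h, if_neg h]

lemma weight_compl (E : Finset α) (p : α → ℝ) (H : Finset α) :
    weight E p H = weight E (fun e => 1 - p e) (E \ H) := by
  unfold weight
  refine prod_congr rfl fun e he => ?_
  by_cases h1 : e ∈ H
  · rw [if_pos h1, if_neg (fun h2 => (mem_sdiff.1 h2).2 h1)]; ring
  · rw [if_neg h1, if_pos (mem_sdiff.2 ⟨he, h1⟩)]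

lemma prob_compl (E : Finset α) (p : α → ℝ) (Q : Finset α → Prop) :
    prob E p (fun H => Q (E \ H)) = prob E (fun e => 1 - p e) Q := by
  classical
  unfold prob
  refine sum_bij' (fun H _ => E \ H) (fun H _ => E \ H)
    (fun _ _ => mem_powerset.2 sdiff_subset) (fun _ _ => mem_powerset.2 sdiff_subset)
    (fun H hH => ?_) (fun H hH => ?_) ?_
  · exact Finset.sdiff_sdiff_eq_self (mem_powerset.1 hH)
  · exact Finset.sdiff_sdiff_eq_self (mem_powerset.1 hH)
  · intro H _
    rw [weight_compl]

lemma prob_mono {E : Finset α} {p : α → ℝ} (hp0 : ∀ e ∈ E, 0 ≤ p e)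
    (hp1 : ∀ e ∈ E, p e ≤ 1) {Q R : Finset α → Prop} (h : ∀ H ⊆ E, Q H → R H) :
    prob E p Q ≤ prob E p R := by
  classical
  unfold prob
  refine sum_le_sum fun H hH => ?_
  have := weight_nonneg hp0 hp1 H
  by_cases hQ : Q H
  · rw [if_pos hQ, if_pos (h H (mem_powerset.1 hH) hQ)]
  · rw [if_neg hQ]
    split_ifs
    · exact this
    · exact le_rfl

lemma prob_or_le {E : Finset α} {p : α → ℝ} (hp0 : ∀ e ∈ E, 0 ≤ p e)
    (hp1 : ∀ e ∈ E, p e ≤ 1) (Q R : Finset α → Prop) :
    prob E p (fun H => Q H ∨ R H) ≤ prob E p Q + prob E p R := by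
  classical
  unfold prob
  rw [← sum_add_distrib]
  refine sum_le_sum fun H _ => ?_
  have := weight_nonneg hp0 hp1 H
  by_cases hQ : Q H
  · by_cases hR : R H
    · rw [if_pos (Or.inl hQ), if_pos hQ, if_pos hR]; linarith
    · rw [if_pos (Or.inl hQ), if_pos hQ, if_neg hR]; linarith
  · by_cases hR : R H
    · rw [if_pos (Or.inr hR), if_neg hQ, if_pos hR]; linarith
    · rw [if_neg (not_or.2 ⟨hQ, hR⟩), if_neg hQ, if_neg hR]; linarith

end Pool.Agent.T2H11.HN
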