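import Pool.Agent.T2H11.HN.Final

set_option autoImplicit false

/-!
# Monochromatic sets in random colourings of `r`-sets
-/

open Finset Filter Topology

namespace Pool.Agent.T2H11.HN

open Pool.Agent.T2H11.SM (Tup mem_tup card_tup small_nat)

lemma card_ed (n r : ℕ) : (Ed (Fin n) r).card = n.choose r := by
  unfold Ed
  rw [card_powersetCard, card_univ, Fintype.card_fin]

/-- the average of `w` over the `r`-subsets -/
noncomputable def average (r : ℕ) {n : ℕ} (w : Finset (Fin n) → ℝ) : ℝ :=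
  (∑ e ∈ Ed (Fin n) r, w e) / n.choose r

lemma fact_choose_le (n r : ℕ) : (r.factorial : ℝ) * (n.choose r : ℝ) ≤ (n : ℝ) ^ r := by
  have h := Nat.choose_le_pow_div (α := ℝ) r n
  have h0 : (0:ℝ) < (r.factorial : ℝ) := by exact_mod_cast Nat.factorial_pos r
  rw [le_div_iff₀ h0] at h
  linarith

lemma sum_eq_average {n r : ℕ} (hn : r ≤ n) (w : Finset (Fin n) → ℝ) :
    ∑ e ∈ Ed (Fin n) r, w e = average r w * n.choose r := by
  unfold average
  have : (0:ℝ) < n.choose r := by exact_mod_cast Nat.choose_pos hn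
  field_simp

lemma average_le {n r : ℕ} (hn : r ≤ n) {w : Finset (Fin n) → ℝ} {M : ℝ}
    (h : ∀ e ∈ Ed (Fin n) r, w e ≤ M) : average r w ≤ M := by
  unfold average
  have : (0:ℝ) < n.choose r := by exact_mod_cast Nat.choose_pos hn
  rw [div_le_iff₀ this, ← card_ed, mul_comm, ← nsmul_eq_mul, ← sum_const]
  exact sum_le_sum h

lemma average_nonneg {n r : ℕ} {w : Finset (Fin n) → ℝ} (h : ∀ e ∈ Ed (Fin n) r, 0 ≤ w e) :
    0 ≤ average r w :=
  div_nonneg (sum_nonneg h) (Nat.cast_nonneg _)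

lemma average_add {n r : ℕ} (w w' : Finset (Fin n) → ℝ) :
    average r (fun e => w e + w' e) = average r w + average r w' := by
  unfold average
  rw [sum_add_distrib, add_div]

lemma exp_ge_nat {q k : ℕ} {ε : ℝ} (hε : 0 < ε) (hk1 : 1 ≤ k) (hk : ((q : ℝ) + 2) / ε ≤ k) {x : ℝ}
    (hx : ε ≤ x) : ((q : ℝ) + 2) < Real.exp (x * (k : ℝ) ^ (q + 1)) := by
  have hkr : (1:ℝ) ≤ k := by exact_mod_cast hk1
  have h1 : (k : ℝ) ≤ (k : ℝ) ^ (q + 1) := by
    calc (k : ℝ) = (k : ℝ) ^ 1 := (pow_one _).symm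
      _ ≤ (k : ℝ) ^ (q + 1) := pow_le_pow_right₀ hkr (by omega)
  have h2 : (q : ℝ) + 2 ≤ x * (k : ℝ) ^ (q + 1) := by
    rw [div_le_iff₀ hε] at hk
    calc (q : ℝ) + 2 ≤ k * ε := hk
      _ = ε * k := mul_comm _ _
      _ ≤ x * (k : ℝ) ^ (q + 1) := mul_le_mul hx h1 (by positivity) (by linarith)
  have h3 := Real.add_one_lt_exp (x := x * (k : ℝ) ^ (q + 1)) (by
    have : (0:ℝ) ≤ q := Nat.cast_nonneg q
    intro h0
    rw [h0] at h2
    linarith)
  linarith

/-- one colour, all edge probabilities at least `δ` -/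
theorem red_whp (q : ℕ) {δ ε : ℝ} (hδ : 0 < δ) (hε : 0 < ε) :
    ∃ K : ℕ, ∀ k : ℕ, K ≤ k → ∀ (n : ℕ) (p : Finset (Fin n) → ℝ),
      (∀ e ∈ Ed (Fin n) (q + 2), δ ≤ p e ∧ p e ≤ 1) →
      ∀ c : ℝ, average (q + 2) (fun e => -Real.log (p e)) ≤ c → 0 ≤ c →
      Real.exp ((c / (q + 2).factorial + ε) * (k : ℝ) ^ (q + 1)) ≤ n →
      1 - ε ≤ prob (Ed (Fin n) (q + 2)) p (HasClique (q + 2) k) := by
  set M := max 1 (-Real.log δ) with hM
  have hM1 : 1 ≤ M := le_max_left _ _
  have hMd : Real.exp (-M) ≤ δ := by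
    have h1 : Real.exp (-M) ≤ Real.exp (Real.log δ) :=
      Real.exp_le_exp.2 (by linarith [le_max_right 1 (-Real.log δ)])
    rwa [Real.exp_log hδ] at h1
  have hε' : 0 < min ε 1 := lt_min hε one_pos
  obtain ⟨K, hK⟩ := clique_whp q hM1 hε' (min_le_right ε 1)
  obtain ⟨K2, hK2⟩ := exists_nat_gt (((q : ℝ) + 2) / ε)
  refine ⟨max (K + 1) K2, fun k hk n p hp c hc hc0 hn => ?_⟩
  have hk1 : K + 1 ≤ k := le_trans (le_max_left _ _) hk
  have hk2 : K2 ≤ k := le_trans (le_max_right _ _) hk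
  obtain ⟨m, rfl⟩ : ∃ m, k = m + 1 := ⟨k - 1, by omega⟩
  have hF0 : (0:ℝ) < ((q + 2).factorial : ℝ) := by exact_mod_cast Nat.factorial_pos _
  have hnbig : ((q : ℝ) + 2) < n := by
    refine lt_of_lt_of_le ?_ hn
    refine exp_ge_nat hε (by omega) (hK2.le.trans (by exact_mod_cast hk2)) ?_
    have : 0 ≤ c / (q + 2).factorial := by positivity
    linarith
  have hn2 : q + 2 ≤ n := by
    have : ((q + 2 : ℕ) : ℝ) < n := by push_cast; exact hnbig
    exact (Nat.cast_lt.1 this).le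
  have hp0 : ∀ e ∈ Ed (Fin n) (q + 2), 0 < p e := fun e he => hδ.trans_le (hp e he).1
  have hav0 : 0 ≤ average (q + 2) (fun e => -Real.log (p e)) := average_nonneg fun e he =>
    neg_nonneg.2 (Real.log_nonpos (hp0 e he).le (hp e he).2)
  have havM : average (q + 2) (fun e => -Real.log (p e)) ≤ M := average_le hn2 fun e he => by
    have h1 := Real.log_le_log hδ (hp e he).1
    linarith [le_max_right 1 (-Real.log δ)]
  have h2 : min ε 1 ≤ ε := min_le_left _ _
  have h := hK m (by omega) (Fin n) p (average (q + 2) (fun e => -Real.log (p e)))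
    (fun e he => ⟨hMd.trans (hp e he).1, (hp e he).2⟩) hav0 havM (by
      refine (En_le hp0 fun e he => (hp e he).2).trans ?_
      rw [sum_eq_average hn2, Fintype.card_fin]
      calc ((q + 2).factorial : ℝ) * (average (q + 2) (fun e => -Real.log (p e)) *
            (n.choose (q + 2) : ℝ)) = average (q + 2) (fun e => -Real.log (p e)) *
            (((q + 2).factorial : ℝ) * (n.choose (q + 2) : ℝ)) := by ring
        _ ≤ _ := mul_le_mul_of_nonneg_left (fact_choose_le n (q + 2)) hav0) (by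
      rw [Fintype.card_fin]
      refine le_trans (Real.exp_le_exp.2 ?_) hn
      push_cast
      refine mul_le_mul_of_nonneg_right ?_ (by positivity)
      have h3 : average (q + 2) (fun e => -Real.log (p e)) / (q + 2).factorial ≤
          c / (q + 2).factorial := div_le_div_of_nonneg_right hc hF0.le
      linarith)
  linarith

/-- some `k`-set is monochromatic -/
def HasMono {V : Type} (r k : ℕ) (H : Finset (Finset V)) : Prop :=
  ∃ S : Finset V, S.card = k ∧ ((∀ e ∈ powersetCard r S, e ∈ H) ∨ ∀ e ∈ powersetCard r S, e ∉ H)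

lemma hasMono_left {V : Type} {r k : ℕ} {H : Finset (Finset V)} (h : HasClique r k H) :
    HasMono r k H := by
  obtain ⟨S, h1, h2⟩ := h
  exact ⟨S, h1, Or.inl fun e he => h2 he⟩

lemma hasMono_right {V : Type} [DecidableEq V] {r k : ℕ} {E H : Finset (Finset V)}
    (h : HasClique r k (E \ H)) : HasMono r k H := by
  obtain ⟨S, h1, h2⟩ := h
  exact ⟨S, h1, Or.inr fun e he => (mem_sdiff.1 (h2 he)).2⟩

lemma hasMono_iff {V : Type} [Fintype V] [DecidableEq V] {r k : ℕ} {H : Finset (Finset V)} :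
    HasMono r k H ↔ HasClique r k H ∨ HasClique r k (Ed V r \ H) := by
  constructor
  · rintro ⟨S, h1, h2 | h2⟩
    · exact Or.inl ⟨S, h1, fun e he => h2 e he⟩
    · exact Or.inr ⟨S, h1, fun e he => mem_sdiff.2 ⟨ps_sub r S he, h2 e he⟩⟩
  · rintro (h | h)
    · exact hasMono_left h
    · exact hasMono_right h

/-- **Monochromatic sets.** -/
theorem mono_whp (q : ℕ) {δ ε : ℝ} (hδ : 0 < δ) (hε : 0 < ε) :
    ∃ K : ℕ, ∀ k : ℕ, K ≤ k → ∀ (n : ℕ) (p : Finset (Fin n) → ℝ),
      (∀ e ∈ Ed (Fin n) (q + 2), δ ≤ p e ∧ p e ≤ 1 - δ) →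
      Real.exp ((average (q + 2) (fun e => Real.log (1 / (p e * (1 - p e)))) /
        (2 * (q + 2).factorial) + ε) * (k : ℝ) ^ (q + 1)) ≤ n →
      1 - ε ≤ prob (Ed (Fin n) (q + 2)) p (HasMono (q + 2) k) := by
  obtain ⟨K, hK⟩ := red_whp q hδ hε
  refine ⟨K, fun k hk n p hp hn => ?_⟩
  set A := average (q + 2) (fun e => Real.log (1 / (p e * (1 - p e)))) with hA
  have hp0 : ∀ e ∈ Ed (Fin n) (q + 2), 0 < p e := fun e he => hδ.trans_le (hp e he).1
  have hq0 : ∀ e ∈ Ed (Fin n) (q + 2), 0 < 1 - p e := fun e he => by linarith [(hp e he).2]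
  have hAs : A = average (q + 2) (fun e => -Real.log (p e)) +
      average (q + 2) (fun e => -Real.log (1 - p e)) := by
    rw [← average_add, hA]
    unfold average
    congr 1
    refine sum_congr rfl fun e he => ?_
    have h1 := hp0 e he
    have h2 := hq0 e he
    show Real.log (1 / (p e * (1 - p e))) = -Real.log (p e) + -Real.log (1 - p e)
    rw [one_div, Real.log_inv, Real.log_mul h1.ne' h2.ne']
    ring
  have hA0 : 0 ≤ A := by
    rw [hAs]
    exact add_nonneg
      (average_nonneg fun e he => neg_nonneg.2 (Real.log_nonpos (hp0 e he).le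
        (by linarith [hq0 e he])))
      (average_nonneg fun e he => neg_nonneg.2 (Real.log_nonpos (hq0 e he).le
        (by linarith [hp0 e he])))
  have hn' : Real.exp ((A / 2 / (q + 2).factorial + ε) * (k : ℝ) ^ (q + 1)) ≤ n := by
    have : A / 2 / (q + 2).factorial = A / (2 * (q + 2).factorial) := div_div _ _ _
    rw [this]; exact hn
  rcases le_total (average (q + 2) (fun e => -Real.log (p e)))
    (average (q + 2) (fun e => -Real.log (1 - p e))) with h | h
  · have h1 := hK k hk n p (fun e he => ⟨(hp e he).1, by linarith [hq0 e he]⟩) (A / 2)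
      (by linarith) (by linarith) hn'
    refine h1.trans (prob_mono (fun e he => (hp0 e he).le) (fun e he => by linarith [hq0 e he]) ?_)
    exact fun H _ h2 => hasMono_left h2
  · have h1 := hK k hk n (fun e => 1 - p e)
      (fun e he => ⟨by linarith [(hp e he).2], by linarith [hp0 e he]⟩) (A / 2)
      (by linarith) (by linarith) hn'
    rw [← prob_compl] at h1
    refine h1.trans (prob_mono (fun e he => (hp0 e he).le) (fun e he => by linarith [hq0 e he]) ?_)
    exact fun H _ h2 => hasMono_right h2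

/-- uniform version: all probabilities at least `δ`, where `δ` may depend on `k` -/
theorem clique_uniform (q : ℕ) {ε : ℝ} (hε : 0 < ε) (hε1 : ε ≤ 1) :
    ∃ K : ℕ, ∀ m : ℕ, K ≤ m → ∀ (V : Type) [Fintype V] [DecidableEq V] (p : Finset V → ℝ) (δ : ℝ),
      0 < δ → δ ≤ 1 → (∀ e ∈ Ed V (q + 2), δ ≤ p e ∧ p e ≤ 1) →
      Real.exp ((-Real.log δ / (q + 2).factorial + ε) * ((m:ℝ) + 1) ^ (q + 1)) ≤ Fintype.card V →
      1 - ε ≤ prob (Ed V (q + 2)) p (HasClique (q + 2) (m + 1)) := by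
  obtain ⟨K, hK⟩ := numeric q le_rfl hε
  obtain ⟨K2, hK2⟩ := exists_nat_gt (2 / ε)
  refine ⟨max K K2, fun m hm V _ _ p δ hδ hδ1 hp hn => ?_⟩
  obtain ⟨hqm, hn1, hn2⟩ := hK m (le_trans (le_max_left _ _) hm)
  have hm2 : K2 ≤ m := le_trans (le_max_right _ _) hm
  set k : ℝ := (m:ℝ) + 1 with hk
  have hk1 : 1 ≤ k := by rw [hk]; linarith [Nat.cast_nonneg (α := ℝ) m]
  have hkq : k ≤ k ^ (q + 1) := by
    calc k = k ^ 1 := (pow_one k).symm
      _ ≤ k ^ (q + 1) := pow_le_pow_right₀ hk1 (by omega)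
  have hV : Nonempty V := by
    rw [← Fintype.card_pos_iff]
    have : (0:ℝ) < Fintype.card V := (Real.exp_pos _).trans_le hn
    exact_mod_cast this
  set L := -Real.log δ with hL
  have hL0 : 0 ≤ L := neg_nonneg.2 (Real.log_nonpos hδ.le hδ1)
  set w := lw (q + 2) p with hw
  have hp0 : ∀ e ∈ Ed V (q + 2), 0 < p e := fun e he => hδ.trans_le (hp e he).1
  have hwL : ∀ S, w S ≤ L := by
    intro S
    rw [hw]
    unfold lw
    split_ifs with h
    · have h1 := Real.log_le_log hδ (hp _ (mem_ed.2 h)).1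
      rw [hL]; linarith
    · exact hL0
  set X : Finset V := univ with hX
  have hXn : X.Nonempty := univ_nonempty
  set s : ℝ := (X.card : ℝ) with hs
  have hs0 : 0 < s := by rw [hs]; exact_mod_cast hXn.card_pos
  have hsn : s = Fintype.card V := by rw [hs, hX, card_univ]
  set F : ℝ := ((q + 2).factorial : ℝ) with hF
  have hF0 : 0 < F := by rw [hF]; exact_mod_cast Nat.factorial_pos _
  have hkpow : 0 ≤ k ^ (q + 1) := by positivity
  have hsl : Real.exp (ε * k ^ (q + 1) + L / F * k ^ (q + 1)) ≤ s := by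
    rw [hsn]
    refine le_trans (Real.exp_le_exp.2 (le_of_eq ?_)) hn
    ring
  have hLF : 0 ≤ L / F := by positivity
  have h2e : 0 ≤ 2 * 1 / ε := by positivity
  have hsl2 : Real.exp (ε * k - 2 * 1 / ε) ≤ s := by
    refine le_trans (Real.exp_le_exp.2 ?_) hsl
    have h1 : ε * k ≤ ε * k ^ (q + 1) := mul_le_mul_of_nonneg_left hkq hε.le
    have h2 : 0 ≤ L / F * k ^ (q + 1) := mul_nonneg hLF hkpow
    linarith
  set D := (m.choose (q + 1) : ℝ) * L with hD
  have hgood := card_good X hXn (w := fun _ => (0:ℝ)) (M := 1) (c := 0) (η := ε / 2)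
    (fun _ => le_rfl) (fun _ => zero_le_one) one_pos hqm (by positivity) (by linarith) (by
      intro x _
      unfold P
      rw [sum_eq_zero fun _ _ => rfl, zero_mul])
  have hsub : Good (fun _ => (0:ℝ)) X (q + 1) m ((m.choose (q + 1) : ℝ) * (0 + ε / 2)) ⊆
      Good w X (q + 1) m D := by
    intro f hf
    obtain ⟨h1, h2, -⟩ := mem_good.1 hf
    refine mem_good.2 ⟨h1, h2, fun i => ?_⟩
    unfold G
    refine (sum_le_sum fun A _ => hwL _).trans (le_of_eq ?_)
    rw [sum_const, card_powersetCard, card_univ, Fintype.card_fin, nsmul_eq_mul]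
  have hgood2 : s ^ (m + 1) - (m + 1) * ((m + 1) * s ^ m +
      s ^ (m + 1) * Real.exp (-(m * (ε / 2) ^ 2 / (4 * (q + 1) ^ 2 * 1 ^ 2)))) ≤
      ((Good w X (q + 1) m D).card : ℝ) :=
    hgood.trans (by exact_mod_cast card_le_card hsub)
  rw [← hk] at hgood2
  set g : ℝ := ((Good w X (q + 1) m D).card : ℝ) with hg
  have hg1 : 1 - ε / 2 ≤ g / s ^ (m + 1) := by
    rw [le_div_iff₀ (by positivity)]
    have h1 : s ^ m = s ^ (m + 1) / s := by
      rw [eq_div_iff hs0.ne', ← pow_succ]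
    rw [h1] at hgood2
    have h2 : k * (s ^ (m + 1) / s) ≤ s ^ (m + 1) * (k * Real.exp (-(ε * k - 2 * 1 / ε))) := by
      have h3 : 1 / s ≤ Real.exp (-(ε * k - 2 * 1 / ε)) := by
        rw [Real.exp_neg, ← one_div]
        exact one_div_le_one_div_of_le (Real.exp_pos _) hsl2
      calc k * (s ^ (m + 1) / s) = s ^ (m + 1) * (k * (1 / s)) := by ring
        _ ≤ _ := by
          refine mul_le_mul_of_nonneg_left (mul_le_mul_of_nonneg_left h3 (by positivity))
            (by positivity)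
    have h3 : k * (k * (s ^ (m + 1) / s) +
        s ^ (m + 1) * Real.exp (-(m * (ε / 2) ^ 2 / (4 * (q + 1) ^ 2 * 1 ^ 2)))) ≤
        s ^ (m + 1) * (ε / 2) := by
      calc k * (k * (s ^ (m + 1) / s) +
            s ^ (m + 1) * Real.exp (-(m * (ε / 2) ^ 2 / (4 * (q + 1) ^ 2 * 1 ^ 2))))
          ≤ k * (s ^ (m + 1) * (k * Real.exp (-(ε * k - 2 * 1 / ε))) +
            s ^ (m + 1) * Real.exp (-(m * (ε / 2) ^ 2 / (4 * (q + 1) ^ 2 * 1 ^ 2)))) := by
            refine mul_le_mul_of_nonneg_left ?_ (by positivity)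
            linarith
        _ = s ^ (m + 1) * (k * (k * Real.exp (-(ε * k - 2 * 1 / ε)) +
            Real.exp (-(m * (ε / 2) ^ 2 / (4 * (q + 1) ^ 2 * 1 ^ 2))))) := by ring
        _ ≤ _ := mul_le_mul_of_nonneg_left hn1 (by positivity)
    nlinarith
  have hgpos : 0 < (Good w X (q + 1) m D).card := by
    by_contra hcon
    have h0 : (Good w X (q + 1) m D).card = 0 := by omega
    rw [hg, h0] at hg1
    simp only [Nat.cast_zero, zero_div] at hg1
    linarith
  have hfin := prob_clique (q := q + 1) (D := D) hp0 (fun e he => (hp e he).2) hXn hgpos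
  refine le_trans ?_ hfin
  rw [← hs, ← hg, ← hk]
  have hDb : D / ((q + 1 : ℕ) + 1) ≤ L / F * k ^ (q + 1) := by
    have h1 : (m.choose (q + 1) : ℝ) ≤ k ^ (q + 1) / ((q + 1).factorial : ℝ) := by
      have h2 := Nat.choose_le_pow_div (α := ℝ) (q + 1) m
      refine h2.trans ?_
      refine div_le_div_of_nonneg_right ?_ (by positivity)
      exact pow_le_pow_left₀ (Nat.cast_nonneg m) (by rw [hk]; linarith) _
    have hFF : F = (q + 1 + 1) * ((q + 1).factorial : ℝ) := by
      rw [hF]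
      have := Nat.factorial_succ (q + 1)
      rw [show q + 1 + 1 = q + 2 from rfl] at this
      rw [this]
      push_cast
      ring
    have h3 : D ≤ k ^ (q + 1) / ((q + 1).factorial : ℝ) * L := by
      rw [hD]
      exact mul_le_mul_of_nonneg_right h1 hL0
    rw [hFF, div_le_iff₀ (by positivity)]
    refine h3.trans (le_of_eq ?_)
    push_cast
    field_simp
  have h5 : k ^ 2 * Real.exp (D / ((q + 1 : ℕ) + 1)) / s ≤ ε / 2 := by
    refine le_trans ?_ hn2
    rw [div_le_iff₀ hs0, mul_assoc]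
    refine mul_le_mul_of_nonneg_left ?_ (by positivity)
    refine (Real.exp_le_exp.2 hDb).trans ?_
    have h6 : Real.exp (L / F * k ^ (q + 1)) ≤ Real.exp (-(ε / 2 * k - 2 * 1 / ε)) *
        Real.exp (ε * k ^ (q + 1) + L / F * k ^ (q + 1)) := by
      rw [← Real.exp_add]
      apply Real.exp_le_exp.2
      have e4 := mul_le_mul_of_nonneg_left hkq hε.le
      have e5 : 0 ≤ ε / 2 * k := by positivity
      linarith
    refine h6.trans ?_
    exact mul_le_mul_of_nonneg_left hsl (Real.exp_pos _).le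
  have h6 : 1 - ε / 2 ≤ Real.exp (-(k ^ 2 * Real.exp (D / ((q + 1 : ℕ) + 1)) / s)) := by
    have := Real.add_one_le_exp (-(k ^ 2 * Real.exp (D / ((q + 1 : ℕ) + 1)) / s))
    linarith
  have h7 : (1 - ε / 2) * (1 - ε / 2) ≤
      g / s ^ (m + 1) * Real.exp (-(k ^ 2 * Real.exp (D / ((q + 1 : ℕ) + 1)) / s)) :=
    mul_le_mul hg1 h6 (by linarith) (by linarith)
  nlinarith [sq_nonneg ε]

end Pool.Agent.T2H11.HN
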