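import Pool.Agent.T2H11.HN.Lower

set_option autoImplicit false

/-!
# Smoothed hypergraph Ramsey numbers
-/

open Finset Filter Topology

namespace Pool.Agent.T2H11.HN

/-- the defining property of the smoothed Ramsey number -/
def Forced (r : ℕ) (δ : ℝ) (k N : ℕ) : Prop :=
  ∀ n : ℕ, N ≤ n → ∀ H : Finset (Finset (Fin n)),
    1 / 2 ≤ prob (Ed (Fin n) r) (noise δ H) (HasMono r k)

/-- the smoothed Ramsey number -/
noncomputable def sR (r : ℕ) (δ : ℝ) (k : ℕ) : ℕ := sInf {N : ℕ | Forced r δ k N}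

/-- the Ramsey number -/
noncomputable def ram (r m : ℕ) : ℕ := sInf {N : ℕ | ∀ H : Finset (Finset (Fin N)), HasMono r m H}

lemma average_noise {n r : ℕ} (hn : r ≤ n) (δ : ℝ) (H : Finset (Finset (Fin n))) :
    average r (fun e => Real.log (1 / (noise δ H e * (1 - noise δ H e)))) =
      Real.log (1 / (δ * (1 - δ))) := by
  unfold average
  have h1 : ∀ e ∈ Ed (Fin n) r, Real.log (1 / (noise δ H e * (1 - noise δ H e))) =
      Real.log (1 / (δ * (1 - δ))) := by
    intro e _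
    rcases noise_cases δ H e with h | h
    · rw [h]
      congr 2
      ring
    · rw [h]
  rw [sum_congr rfl h1, sum_const, card_ed, nsmul_eq_mul]
  have : (0:ℝ) < n.choose r := by exact_mod_cast Nat.choose_pos hn
  field_simp

lemma const_eq {δ F : ℝ} (h0 : 0 < δ) (h1 : δ < 1) :
    Real.log (1 / (δ * (1 - δ))) / (2 * F) =
      Real.log 2 / F + Real.log (1 / (4 * (δ * (1 - δ)))) / (2 * F) := by
  have h2 : 0 < δ * (1 - δ) := mul_pos h0 (by linarith)
  rw [one_div, one_div, Real.log_inv, Real.log_inv, Real.log_mul (by norm_num) h2.ne']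
  have h4 : Real.log 4 = 2 * Real.log 2 := by
    rw [show (4:ℝ) = 2 ^ (2:ℕ) by norm_num, Real.log_pow]; norm_num
  rw [h4]
  rcases eq_or_ne F 0 with hF | hF
  · rw [hF]; simp
  · field_simp
    ring

/-- uniform upper bound -/
theorem forced_uniform (q : ℕ) {ε : ℝ} (hε : 0 < ε) : ∃ K : ℕ, ∀ k : ℕ, K ≤ k → ∀ δ : ℝ,
    0 < δ → δ ≤ 1 / 2 → Forced (q + 2) δ k
      ⌈Real.exp ((-Real.log δ / (q + 2).factorial + ε) * (k : ℝ) ^ (q + 1))⌉₊ := by
  have hε' : 0 < min ε (1 / 2) := lt_min hε (by norm_num)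
  obtain ⟨K, hK⟩ := clique_uniform q hε' ((min_le_right _ _).trans (by norm_num))
  refine ⟨K + 1, fun k hk δ h0 h1 n hn H => ?_⟩
  obtain ⟨m, rfl⟩ : ∃ m, k = m + 1 := ⟨k - 1, by omega⟩
  have hn' := Nat.ceil_le.1 hn
  have h2 : min ε (1 / 2) ≤ ε := min_le_left _ _
  have h3 : min ε (1 / 2) ≤ 1 / 2 := min_le_right _ _
  have hp : ∀ e ∈ Ed (Fin n) (q + 2), δ ≤ noise δ H e ∧ noise δ H e ≤ 1 := fun e _ => by
    rcases noise_cases δ H e with h | h <;> rw [h] <;> constructor <;> linarith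
  have h := hK m (by omega) (Fin n) (noise δ H) δ h0 (by linarith) hp (by
    rw [Fintype.card_fin]
    refine le_trans (Real.exp_le_exp.2 ?_) hn'
    push_cast
    refine mul_le_mul_of_nonneg_right ?_ (by positivity)
    linarith)
  have h4 : prob (Ed (Fin n) (q + 2)) (noise δ H) (HasClique (q + 2) (m + 1)) ≤
      prob (Ed (Fin n) (q + 2)) (noise δ H) (HasMono (q + 2) (m + 1)) :=
    prob_mono (fun e he => h0.le.trans (hp e he).1) (fun e he => (hp e he).2)
      fun H' _ h5 => hasMono_left h5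
  linarith

theorem upper_uniform (q : ℕ) {ε : ℝ} (hε : 0 < ε) : ∃ K : ℕ, ∀ k : ℕ, K ≤ k → ∀ δ : ℝ,
    0 < δ → δ ≤ 1 / 2 → Forced (q + 2) δ k (sR (q + 2) δ k) ∧
      Real.log (sR (q + 2) δ k) ≤
        (Real.log (1 / δ) / (q + 2).factorial + ε) * (k : ℝ) ^ (q + 1) := by
  obtain ⟨K, hK⟩ := forced_uniform q (half_pos hε)
  obtain ⟨K2, hK2⟩ := exists_nat_gt (Real.log 2 / (ε / 2))
  refine ⟨max (max K K2) 1, fun k hk δ h0 h1 => ?_⟩
  have hkK : K ≤ k := le_trans (le_trans (le_max_left _ _) (le_max_left _ _)) hk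
  have hkK2 : K2 ≤ k := le_trans (le_trans (le_max_right _ _) (le_max_left _ _)) hk
  have hk1 : 1 ≤ k := le_trans (le_max_right _ _) hk
  have hkr : (1:ℝ) ≤ k := by exact_mod_cast hk1
  have hF := hK k hkK δ h0 h1
  have hmem : Forced (q + 2) δ k (sR (q + 2) δ k) := Nat.sInf_mem (s := {N : ℕ |
    Forced (q + 2) δ k N}) ⟨_, hF⟩
  refine ⟨hmem, ?_⟩
  have hle : sR (q + 2) δ k ≤ _ := Nat.sInf_le (s := {N : ℕ | Forced (q + 2) δ k N}) hF
  have hL : Real.log (1 / δ) = -Real.log δ := by rw [one_div, Real.log_inv]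
  rw [hL]
  set L := -Real.log δ with hLd
  have hL0 : 0 ≤ L := neg_nonneg.2 (Real.log_nonpos h0.le (by linarith))
  set x := (L / (q + 2).factorial + ε / 2) * (k : ℝ) ^ (q + 1) with hx
  have hx0 : 0 ≤ x := by positivity
  have hkq : (k : ℝ) ≤ (k : ℝ) ^ (q + 1) := by
    calc (k : ℝ) = (k : ℝ) ^ 1 := (pow_one _).symm
      _ ≤ (k : ℝ) ^ (q + 1) := pow_le_pow_right₀ hkr (by omega)
  have hlog2 : Real.log 2 ≤ ε / 2 * (k : ℝ) ^ (q + 1) := by
    have h2 : Real.log 2 / (ε / 2) ≤ k := hK2.le.trans (by exact_mod_cast hkK2)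
    rw [div_le_iff₀ (by positivity)] at h2
    have h3 := mul_le_mul_of_nonneg_left hkq (half_pos hε).le
    linarith
  rcases Nat.eq_zero_or_pos (sR (q + 2) δ k) with hz | hz
  · rw [hz, Nat.cast_zero, Real.log_zero]
    positivity
  · have h2 : (sR (q + 2) δ k : ℝ) ≤ 2 * Real.exp x := by
      have h3 : (sR (q + 2) δ k : ℝ) ≤ (⌈Real.exp x⌉₊ : ℝ) := by exact_mod_cast hle
      have h4 := Nat.ceil_lt_add_one (a := Real.exp x) (Real.exp_pos _).le
      have h5 := Real.one_le_exp hx0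
      linarith
    have h3 := Real.log_le_log (by exact_mod_cast hz) h2
    rw [Real.log_mul (by norm_num) (Real.exp_pos _).ne', Real.log_exp] at h3
    refine h3.trans ?_
    have e : (L / (q + 2).factorial + ε) * (k : ℝ) ^ (q + 1) = x + ε / 2 * (k : ℝ) ^ (q + 1) := by
      rw [hx]; ring
    rw [e]
    linarith

/-- growth for fixed noise -/
theorem smoothed (q : ℕ) {δ : ℝ} (hδ : 0 < δ) (hδ2 : δ ≤ 1 / 2) {ε : ℝ} (hε : 0 < ε) :
    ∃ K : ℕ, ∀ k : ℕ, K ≤ k →
      Real.log 2 / (q + 2).factorial - ε ≤ Real.log (sR (q + 2) δ k) / (k : ℝ) ^ (q + 1) ∧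
      Real.log (sR (q + 2) δ k) / (k : ℝ) ^ (q + 1) ≤ Real.log 2 / (q + 2).factorial +
        Real.log (1 / (4 * (δ * (1 - δ)))) / (2 * (q + 2).factorial) + ε := by
  have hε' : 0 < min (ε / 2) (1 / 2) := lt_min (by positivity) (by norm_num)
  obtain ⟨K, hK⟩ := mono_whp q hδ hε'
  obtain ⟨K2, hK2⟩ := exists_nat_gt (Real.log 2 / (ε / 2))
  obtain ⟨K3, hK3⟩ := prob_half_small q hε
  obtain ⟨K4, hK4⟩ := exists_nat_gt (((q : ℝ) + 2) / (ε / 2))
  refine ⟨max (max K K2) (max K3 (max K4 1)), fun k hk => ?_⟩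
  have hkK : K ≤ k := le_trans (le_trans (le_max_left _ _) (le_max_left _ _)) hk
  have hkK2 : K2 ≤ k := le_trans (le_trans (le_max_right _ _) (le_max_left _ _)) hk
  have hkK3 : K3 ≤ k := le_trans (le_trans (le_max_left _ _) (le_max_right _ _)) hk
  have hkK4 : K4 ≤ k := le_trans (le_trans (le_trans (le_max_left _ _) (le_max_right _ _))
    (le_max_right _ _)) hk
  have hk1 : 1 ≤ k := le_trans (le_trans (le_trans (le_max_right _ _) (le_max_right _ _))
    (le_max_right _ _)) hk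
  have hkr : (1:ℝ) ≤ k := by exact_mod_cast hk1
  have hkpow : (0:ℝ) < (k : ℝ) ^ (q + 1) := by positivity
  have hkq : (k : ℝ) ≤ (k : ℝ) ^ (q + 1) := by
    calc (k : ℝ) = (k : ℝ) ^ 1 := (pow_one _).symm
      _ ≤ (k : ℝ) ^ (q + 1) := pow_le_pow_right₀ hkr (by omega)
  set F : ℝ := ((q + 2).factorial : ℝ) with hF
  have hF0 : 0 < F := by rw [hF]; exact_mod_cast Nat.factorial_pos _
  set c := Real.log (1 / (δ * (1 - δ))) / (2 * F) with hc
  have hd : 0 < δ * (1 - δ) := mul_pos hδ (by linarith)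
  have hc0 : 0 ≤ c := by
    have : 0 ≤ Real.log (1 / (δ * (1 - δ))) := by
      apply Real.log_nonneg
      rw [le_div_iff₀ hd]
      nlinarith [sq_nonneg (δ - 1 / 2)]
    positivity
  set x := (c + ε / 2) * (k : ℝ) ^ (q + 1) with hx
  have hx0 : 0 ≤ x := by positivity
  have hmem : Forced (q + 2) δ k ⌈Real.exp x⌉₊ := by
    intro n hn H
    have hnE : Real.exp x ≤ n := Nat.ceil_le.1 hn
    have hn2 : q + 2 ≤ n := by
      have h1 := exp_ge_nat (q := q) (half_pos hε) hk1 (hK4.le.trans (by exact_mod_cast hkK4))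
        (x := c + ε / 2) (by linarith)
      have : ((q + 2 : ℕ) : ℝ) < n := by push_cast; exact h1.trans_le hnE
      exact (Nat.cast_lt.1 this).le
    have h1 := hK k hkK n (noise δ H) (fun e _ => by
      rcases noise_cases δ H e with h | h
      · rw [h]; constructor <;> linarith
      · rw [h]; constructor <;> linarith) (by
      rw [average_noise hn2]
      refine le_trans (Real.exp_le_exp.2 ?_) hnE
      have : min (ε / 2) (1 / 2) ≤ ε / 2 := min_le_left _ _
      refine mul_le_mul_of_nonneg_right ?_ hkpow.le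
      linarith)
    have h2 : min (ε / 2) (1 / 2) ≤ 1 / 2 := min_le_right _ _
    linarith
  have hupper : sR (q + 2) δ k ≤ ⌈Real.exp x⌉₊ :=
    Nat.sInf_le (s := {N : ℕ | Forced (q + 2) δ k N}) hmem
  have hin : Forced (q + 2) δ k (sR (q + 2) δ k) :=
    Nat.sInf_mem (s := {N : ℕ | Forced (q + 2) δ k N}) ⟨_, hmem⟩
  have hlower : Real.exp ((Real.log 2 / F - ε) * (k : ℝ) ^ (q + 1)) < sR (q + 2) δ k := by
    by_contra hcon
    push Not at hcon
    have h1 := hK3 k hkK3 (sR (q + 2) δ k) hcon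
    obtain ⟨H, hH⟩ := exists_noise_lt (Ed (Fin (sR (q + 2) δ k)) (q + 2)) δ (HasMono (q + 2) k) h1
    have h2 := hin (sR (q + 2) δ k) le_rfl H
    linarith
  have hsR0 : (0:ℝ) < sR (q + 2) δ k := (Real.exp_pos _).trans hlower
  constructor
  · rw [le_div_iff₀ hkpow]
    have h1 := Real.log_le_log (Real.exp_pos _) hlower.le
    rw [Real.log_exp] at h1
    exact h1
  · rw [← const_eq hδ (by linarith), ← hc, div_le_iff₀ hkpow]
    have h1 : (sR (q + 2) δ k : ℝ) ≤ 2 * Real.exp x := by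
      have h2 : (sR (q + 2) δ k : ℝ) ≤ ⌈Real.exp x⌉₊ := by exact_mod_cast hupper
      have h3 := Nat.ceil_lt_add_one (a := Real.exp x) (Real.exp_pos _).le
      have h4 := Real.one_le_exp hx0
      linarith
    have h2 := Real.log_le_log hsR0 h1
    rw [Real.log_mul (by norm_num) (Real.exp_pos _).ne', Real.log_exp] at h2
    have hlog2 : Real.log 2 ≤ ε / 2 * (k : ℝ) ^ (q + 1) := by
      have h2 : Real.log 2 / (ε / 2) ≤ k := hK2.le.trans (by exact_mod_cast hkK2)
      rw [div_le_iff₀ (by positivity)] at h2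
      have h3 := mul_le_mul_of_nonneg_left hkq (half_pos hε).le
      linarith
    have e : (c + ε) * (k : ℝ) ^ (q + 1) = x + ε / 2 * (k : ℝ) ^ (q + 1) := by
      rw [hx]; ring
    rw [e]
    linarith

/-- tower-type growth survives very small noise -/
theorem lower_tower (q : ℕ) : ∃ K : ℕ, ∀ k : ℕ, K ≤ k → ∀ (m N : ℕ) (δ : ℝ), q + 2 ≤ m → m ≤ k →
    0 < δ → δ ≤ 1 / 2 → N < ram (q + 2) m →
    4 * ((N : ℝ) ^ k * δ ^ (((k : ℝ) / m) ^ (q + 2))) < 1 → N < sR (q + 2) δ k := by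
  obtain ⟨K, hK⟩ := upper_uniform q one_pos
  refine ⟨K, fun k hk m N δ hm hmk h0 h1 hN h4 => ?_⟩
  obtain ⟨hF, -⟩ := hK k hk δ h0 h1
  have hN' : N ∉ {N : ℕ | ∀ H : Finset (Finset (Fin N)), HasMono (q + 2) m H} :=
    Nat.notMem_of_lt_sInf hN
  rw [Set.mem_ofPred_eq] at hN'
  push Not at hN'
  obtain ⟨H, hH⟩ := hN'
  have h5 := prob_noise_small (k := k) hm hmk h0 h1 hH h4
  by_contra hcon
  push Not at hcon
  have h6 := hF N hcon H
  linarith

end Pool.Agent.T2H11.HN
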