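import Pool.Agent.T2H11.HN.Azuma

set_option autoImplicit false

/-!
# Weights of `(q + 1)`-sets, potentials of vertices
-/

open Finset

namespace Pool.Agent.T2H11.HN

open Pool.Agent.T2H11.SM

variable {V : Type} [DecidableEq V]

/-- the potential of `x` in `X` (a sum over ordered `q`-tuples) -/
def P (w : Finset V → ℝ) (X : Finset V) (q : ℕ) (x : V) : ℝ :=
  ∑ y ∈ Tup X q, w (insert x (univ.image y))

/-- total weight of the ordered `r`-tuples -/
def En (w : Finset V → ℝ) (X : Finset V) (r : ℕ) : ℝ := ∑ y ∈ Tup X r, w (univ.image y)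

/-- the weight of the `(q + 1)`-sets which contain `x` and `q` entries of `g` -/
def G (w : Finset V → ℝ) (q : ℕ) {m : ℕ} (x : V) (g : Fin m → V) : ℝ :=
  ∑ A ∈ powersetCard q (univ : Finset (Fin m)), w (insert x (A.image g))

/-- number of extensions of a partial tuple -/
lemma card_fiber (X : Finset V) {m q : ℕ} (σ : Fin q ↪o Fin m) (y : Fin q → V) (hy : y ∈ Tup X q) :
    ((Tup X m).filter (fun g => g ∘ σ = y)).card = X.card ^ (m - q) := by
  classical
  have h1 : (Tup X m).filter (fun g => g ∘ σ = y) = Fintype.piFinset (fun j : Fin m =>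
      if h : ∃ i, σ i = j then ({y h.choose} : Finset V) else X) := by
    ext g
    rw [mem_filter, mem_tup, Fintype.mem_piFinset]
    constructor
    · rintro ⟨h2, h3⟩ j
      by_cases h : ∃ i, σ i = j
      · rw [dif_pos h, mem_singleton]
        have h4 := congrFun h3 h.choose
        rw [← h4]
        show g j = g (σ h.choose)
        rw [h.choose_spec]
      · rw [dif_neg h]
        exact h2 j
    · intro h2
      refine ⟨fun j => ?_, ?_⟩
      · have h3 := h2 j
        by_cases h : ∃ i, σ i = j
        · rw [dif_pos h, mem_singleton] at h3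
          rw [h3]
          exact mem_tup.1 hy _
        · rw [dif_neg h] at h3
          exact h3
      · funext i
        have h : ∃ i', σ i' = σ i := ⟨i, rfl⟩
        have h3 := h2 (σ i)
        rw [dif_pos h, mem_singleton] at h3
        show g (σ i) = y i
        rw [h3]
        congr 1
        exact σ.injective h.choose_spec
  rw [h1, Fintype.card_piFinset]
  have h2 : ∀ j : Fin m, (if h : ∃ i, σ i = j then ({y h.choose} : Finset V) else X).card =
      if j ∈ (univ : Finset (Fin q)).image σ then 1 else X.card := by
    intro j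
    by_cases h : ∃ i, σ i = j
    · rw [dif_pos h, card_singleton, if_pos]
      obtain ⟨i, hi⟩ := h
      exact mem_image.2 ⟨i, mem_univ _, hi⟩
    · rw [dif_neg h, if_neg]
      intro h3
      obtain ⟨i, -, hi⟩ := mem_image.1 h3
      exact h ⟨i, hi⟩
  rw [prod_congr rfl fun j _ => h2 j, prod_ite, prod_const_one, one_mul, prod_const]
  congr 1
  rw [filter_not, filter_mem_eq_inter, univ_inter, ← compl_eq_univ_sdiff, card_compl,
    card_image_of_injective _ σ.injective, card_univ, Fintype.card_fin, Fintype.card_fin]

/-- the mean of one summand of `G` -/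
lemma sum_one (w : Finset V → ℝ) (X : Finset V) {q m : ℕ} (x : V) {A : Finset (Fin m)}
    (hA : A.card = q) :
    ∑ g ∈ Tup X m, w (insert x (A.image g)) = (X.card : ℝ) ^ (m - q) * P w X q x := by
  classical
  let σ : Fin q ↪o Fin m := A.orderEmbOfFin hA
  have himg : (univ : Finset (Fin q)).image σ = A := by
    ext j
    rw [mem_image]
    constructor
    · rintro ⟨i, -, rfl⟩
      exact A.orderEmbOfFin_mem hA i
    · intro hj
      have : j ∈ Set.range (A.orderEmbOfFin hA) := by
        rw [range_orderEmbOfFin]; exact hj
      obtain ⟨i, hi⟩ := this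
      exact ⟨i, mem_univ _, hi⟩
  have h1 : ∀ g : Fin m → V, A.image g = univ.image (g ∘ σ) := by
    intro g
    rw [← himg, image_image]
  have h2 : ∀ g ∈ Tup X m, g ∘ σ ∈ Tup X q := fun g hg => mem_tup.2 fun i => mem_tup.1 hg _
  rw [← sum_fiberwise_of_maps_to h2, P, mul_sum]
  refine sum_congr rfl fun y hy => ?_
  have h3 : ∀ g ∈ (Tup X m).filter (fun g => g ∘ σ = y), w (insert x (A.image g)) =
      w (insert x (univ.image y)) := by
    intro g hg
    rw [h1, (mem_filter.1 hg).2]
  rw [sum_congr rfl h3, sum_const, card_fiber X σ y hy, nsmul_eq_mul, Nat.cast_pow]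

/-- the mean of `G` -/
lemma sum_G (w : Finset V → ℝ) (X : Finset V) {q m : ℕ} (x : V) :
    ∑ g ∈ Tup X m, G w q x g = (m.choose q : ℝ) * ((X.card : ℝ) ^ (m - q) * P w X q x) := by
  unfold G
  rw [sum_comm, sum_congr rfl (fun A hA => sum_one w X x (mem_powersetCard.1 hA).2), sum_const,
    card_powersetCard, card_univ, Fintype.card_fin, nsmul_eq_mul]

lemma card_containing {m q : ℕ} (i : Fin m) :
    ((powersetCard (q + 1) (univ : Finset (Fin m))).filter (fun A => i ∈ A)).card ≤
      (m - 1).choose q := by
  have h1 : ((powersetCard q ((univ : Finset (Fin m)).erase i))).card = (m - 1).choose q := by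
    rw [card_powersetCard, card_erase_of_mem (mem_univ i), card_univ, Fintype.card_fin]
  rw [← h1]
  refine card_le_card_of_injOn (fun A => A.erase i) ?_ ?_
  · intro A hA
    rw [mem_coe, mem_filter, mem_powersetCard] at hA
    rw [mem_coe, mem_powersetCard]
    refine ⟨erase_subset_erase i (subset_univ A), ?_⟩
    rw [card_erase_of_mem hA.2, hA.1.2, Nat.add_sub_cancel]
  · intro A hA B hB hAB
    rw [mem_coe, mem_filter] at hA hB
    have : A.erase i = B.erase i := hAB
    rw [← insert_erase hA.2, ← insert_erase hB.2, this]

/-- `G` does not depend much on one entry -/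
lemma G_lip {w : Finset V → ℝ} {M : ℝ} (hw0 : ∀ S, 0 ≤ w S) (hwM : ∀ S, w S ≤ M) (q : ℕ) {m : ℕ}
    (x : V) (g : Fin m → V) (i : Fin m) (y : V) :
    |G w (q + 1) x (Function.update g i y) - G w (q + 1) x g| ≤ (m - 1).choose q * M := by
  classical
  have hM : 0 ≤ M := (hw0 ∅).trans (hwM ∅)
  unfold G
  rw [← sum_sub_distrib]
  refine (abs_sum_le_sum_abs _ _).trans ?_
  have h1 : ∀ A ∈ powersetCard (q + 1) (univ : Finset (Fin m)),
      |w (insert x (A.image (Function.update g i y))) - w (insert x (A.image g))| ≤
        if i ∈ A then M else 0 := by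
    intro A _
    split_ifs with h
    · rw [abs_le]
      constructor
      · linarith [hw0 (insert x (A.image (Function.update g i y))), hwM (insert x (A.image g))]
      · linarith [hwM (insert x (A.image (Function.update g i y))), hw0 (insert x (A.image g))]
    · have h2 : A.image (Function.update g i y) = A.image g := by
        refine image_congr fun j hj => ?_
        rw [Function.update_of_ne]
        rintro rfl
        exact h (mem_coe.1 hj)
      rw [h2, sub_self, abs_zero]
  refine (sum_le_sum h1).trans ?_
  rw [← sum_filter, sum_const, nsmul_eq_mul]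
  exact mul_le_mul_of_nonneg_right (by exact_mod_cast card_containing i) hM

/-- removing a vertex -/
lemma En_erase {w : Finset V → ℝ} {q : ℕ} (hw : ∀ S : Finset V, S.card ≠ q + 1 → w S = 0)
    {X : Finset V} {x : V} (hx : x ∈ X) :
    En w X (q + 1) = En w (X.erase x) (q + 1) + (q + 1) * P w X q x := by
  classical
  have hinj : ∀ y : Fin (q + 1) → V, w (univ.image y) ≠ 0 → Function.Injective y := by
    intro y hy
    have h1 : (univ.image y).card = q + 1 := by
      by_contra h
      exact hy (hw _ h)
    have h2 : Set.InjOn y ((univ : Finset (Fin (q + 1))) : Set (Fin (q + 1))) :=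
      card_image_iff.1 (by rw [h1, card_univ, Fintype.card_fin])
    exact fun a b hab => h2 (mem_coe.2 (mem_univ a)) (mem_coe.2 (mem_univ b)) hab
  have h1 : ∀ y ∈ Tup X (q + 1), w (univ.image y) =
      (if ∀ i, y i ≠ x then w (univ.image y) else 0) +
        ∑ i, if y i = x then w (univ.image y) else 0 := by
    intro y _
    by_cases h0 : w (univ.image y) = 0
    · rw [h0]; simp
    have hy := hinj y h0
    by_cases h : ∀ i, y i ≠ x
    · rw [if_pos h, sum_eq_zero fun i _ => if_neg (h i), add_zero]
    · rw [if_neg h, zero_add]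
      push Not at h
      obtain ⟨i, hi⟩ := h
      rw [sum_eq_single i, if_pos hi]
      · intro j _ hj
        rw [if_neg]
        intro h2
        exact hj (hy (h2.trans hi.symm))
      · intro h2
        exact absurd (mem_univ i) h2
  unfold En
  rw [sum_congr rfl h1, sum_add_distrib, sum_comm]
  congr 1
  · rw [← sum_filter]
    refine sum_congr ?_ fun _ _ => rfl
    ext y
    rw [mem_filter, mem_tup, mem_tup]
    constructor
    · rintro ⟨h2, h3⟩ i
      exact mem_erase.2 ⟨h3 i, h2 i⟩
    · intro h2
      exact ⟨fun i => mem_of_mem_erase (h2 i), fun i => ne_of_mem_erase (h2 i)⟩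
  · have h2 : ∀ i ∈ (univ : Finset (Fin (q + 1))),
        ∑ y ∈ Tup X (q + 1), (if y i = x then w (univ.image y) else 0) = P w X q x := by
      intro i _
      rw [sum_insert X i]
      have h3 : ∀ z ∈ X, ∑ g ∈ Tup X q, (if (i.insertNth z g : Fin (q + 1) → V) i = x then
          w (univ.image (i.insertNth z g : Fin (q + 1) → V)) else 0) =
          if z = x then P w X q z else 0 := by
        intro z _
        by_cases hz : z = x
        · rw [if_pos hz]
          unfold P
          refine sum_congr rfl fun g _ => ?_
          rw [if_pos (by rw [Fin.insertNth_apply_same]; exact hz)]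
          congr 1
          ext v
          rw [mem_image, mem_insert, mem_image]
          constructor
          · rintro ⟨j, -, rfl⟩
            refine Fin.succAboveCases i ?_ (fun j => ?_) j
            · left; rw [Fin.insertNth_apply_same]
            · right
              exact ⟨j, mem_univ _, by rw [Fin.insertNth_apply_succAbove]⟩
          · rintro (rfl | ⟨j, -, rfl⟩)
            · exact ⟨i, mem_univ _, Fin.insertNth_apply_same _ _ _⟩
            · exact ⟨i.succAbove j, mem_univ _, Fin.insertNth_apply_succAbove _ _ _ _⟩
        · rw [if_neg hz]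
          refine sum_eq_zero fun g _ => ?_
          rw [if_neg (by rw [Fin.insertNth_apply_same]; exact hz)]
      rw [sum_congr rfl h3, sum_ite_eq' X x, if_pos hx]
    rw [sum_congr rfl h2, sum_const, card_univ, Fintype.card_fin, nsmul_eq_mul]
    push_cast
    rfl

end Pool.Agent.T2H11.HN
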